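import Pool.Agent.TH486.LC.Pos

/-!
Choosing all the remaining vertices of a linear cycle by Hall's theorem.
-/

set_option autoImplicit false

open Finset

namespace Pool.Agent.TH486.LC

namespace Cfg

variable (G : Cfg)

theorem hall_of_ge {ι : Type} [Fintype ι] [DecidableEq ι] (t : ι → Finset ℕ)
    (h : ∀ i, Fintype.card ι ≤ (t i).card) :
    ∃ f : ι → ℕ, Function.Injective f ∧ ∀ i, f i ∈ t i := by
  rw [← Finset.all_card_le_biUnion_card_iff_exists_injective]
  intro s
  rcases s.eq_empty_or_nonempty with rfl | ⟨i, hi⟩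
  · simp
  · calc s.card ≤ Fintype.card ι := card_le_univ s
      _ ≤ (t i).card := h i
      _ ≤ (s.biUnion t).card := card_le_card (subset_biUnion_of_mem t hi)

theorem hall_two {q : ℕ} (t : Fin q × Bool → Finset ℕ)
    (h1 : ∀ p, q ≤ (t p).card)
    (h2 : ∀ i, 2 * q ≤ (t (i, false)).card ∨ 2 * q ≤ (t (i, true)).card) :
    ∃ f : Fin q × Bool → ℕ, Function.Injective f ∧ ∀ i, f i ∈ t i := by
  rw [← Finset.all_card_le_biUnion_card_iff_exists_injective]
  intro s
  rcases s.eq_empty_or_nonempty with rfl | ⟨p, hp⟩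
  · simp
  · by_cases hc : ∃ r ∈ s, 2 * q ≤ (t r).card
    · obtain ⟨r, hr, hr2⟩ := hc
      calc s.card ≤ Fintype.card (Fin q × Bool) := card_le_univ s
        _ = 2 * q := by simp [mul_comm]
        _ ≤ (t r).card := hr2
        _ ≤ (s.biUnion t).card := card_le_card (subset_biUnion_of_mem t hr)
    · push Not at hc
      have hinj : Set.InjOn Prod.fst (s : Set (Fin q × Bool)) := by
        rintro ⟨i, b⟩ hib ⟨j, c⟩ hjc hij
        simp only at hij
        subst hij
        have hb := hc _ (mem_coe.1 hib)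
        have hcc := hc _ (mem_coe.1 hjc)
        rcases h2 i with h | h
        · cases b <;> cases c <;> first | rfl | (exfalso; omega)
        · cases b <;> cases c <;> first | rfl | (exfalso; omega)
      calc s.card = (s.image Prod.fst).card := (card_image_of_injOn hinj).symm
        _ ≤ Fintype.card (Fin q) := card_le_univ _
        _ = q := by simp
        _ ≤ (t p).card := h1 p
        _ ≤ (s.biUnion t).card := card_le_card (subset_biUnion_of_mem t hp)

/-- common neighbours outside a given set -/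
theorem card_out {a v : ℕ} (C : Finset ℕ) (ha : a ∈ C) (hv : v ∈ C) (hav : a ≠ v) :
    (G.N a v).card + 2 ≤ (G.N a v \ C).card + C.card := by
  have h1 : (G.N a v ∩ C) ⊆ (C.erase a).erase v := by
    intro c hc
    rw [mem_inter] at hc
    rw [mem_erase, mem_erase]
    refine ⟨?_, ?_, hc.2⟩
    · rintro rfl; exact G.right_notMem a c hc.1
    · rintro rfl; exact G.left_notMem c v hc.1
  have h2 := card_le_card h1
  have h3 : ((C.erase a).erase v).card + 2 = C.card := by
    rw [card_erase_of_mem (mem_erase.2 ⟨hav.symm, hv⟩), card_erase_of_mem ha]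
    have h4 : 2 ≤ C.card := by
      have : ({a, v} : Finset ℕ) ⊆ C := by
        intro x hx
        rw [mem_insert, mem_singleton] at hx
        rcases hx with rfl | rfl <;> assumption
      have := card_le_card this
      rwa [card_pair hav] at this
    omega
  have h5 := card_sdiff_add_card_inter (G.N a v) C
  omega

theorem assemble (q β J m : ℕ) (hJ : J + 1 = 2 * q + β) (hm : m + 1 = 3 * q + β)
    (a : ℕ → ℕ) (B : Finset ℕ) (hB : B.card ≤ β) (haB : ∀ i, i ≤ q → a i ∈ B)
    (hR : ∀ i, i < q → q ≤ (G.R B J m (a i) (a (i + 1))).card) :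
    ∃ v μ ν : ℕ → ℕ,
      (∀ i, i < q → v i ∉ B ∧ μ i ∉ B ∧ ν i ∉ B) ∧
      (∀ i j, i < q → j < q → v i ≠ μ j ∧ v i ≠ ν j ∧ μ i ≠ ν j) ∧
      (∀ i j, i < q → j < q → i ≠ j → v i ≠ v j ∧ μ i ≠ μ j ∧ ν i ≠ ν j) ∧
      (∀ i, i < q → G.E (a i) (μ i) (v i) ∧ G.E (v i) (ν i) (a (i + 1))) := by
  classical
  obtain ⟨v0, hv0i, hv0⟩ := hall_of_ge
    (fun i : Fin q => G.R B J m (a i) (a (i + 1)))
    (fun i => by rw [Fintype.card_fin]; exact hR i i.2)
  have hv0B : ∀ i, v0 i ∉ B := fun i => (G.mem_R.1 (hv0 i)).2.1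
  set C := B ∪ univ.image v0 with hC
  have hCc : C.card ≤ β + q := by
    calc C.card ≤ B.card + (univ.image v0).card := card_union_le _ _
      _ ≤ β + q := by
        have : (univ.image v0).card ≤ q := card_image_le.trans (by simp)
        omega
  have haC : ∀ i, i ≤ q → a i ∈ C := fun i hi => by
    rw [hC, mem_union]; exact Or.inl (haB i hi)
  have hvC : ∀ i, v0 i ∈ C := fun i => by
    rw [hC, mem_union]; exact Or.inr (mem_image_of_mem _ (mem_univ _))
  have hav : ∀ (i : Fin q) (j : ℕ), j ≤ q → a j ≠ v0 i := by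
    intro i j hj h
    exact hv0B i (h ▸ haB j hj)
  let S : Fin q × Bool → Finset ℕ := fun p =>
    if p.2 then G.N (v0 p.1) (a (p.1 + 1)) \ C else G.N (a p.1) (v0 p.1) \ C
  have hS0 : ∀ i : Fin q, (G.N (a i) (v0 i)).card + 2 ≤ (S (i, false)).card + C.card := by
    intro i
    have := G.card_out C (haC i (by omega)) (hvC i) (hav i i (by omega))
    simpa [S] using this
  have hS1 : ∀ i : Fin q, (G.N (v0 i) (a (i + 1))).card + 2 ≤ (S (i, true)).card + C.card := by
    intro i
    have := G.card_out C (hvC i) (haC (i + 1) (by omega)) (hav i (i + 1) (by omega)).symm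
    simpa [S] using this
  obtain ⟨f, hfi, hf⟩ := hall_two S
    (by
      rintro ⟨i, b⟩
      have h0 := hS0 i
      have h1 := hS1 i
      rcases (G.mem_R.1 (hv0 i)).2.2 with ⟨g1, g2⟩ | ⟨g1, g2⟩ <;> cases b <;> omega)
    (by
      intro i
      have h0 := hS0 i
      have h1 := hS1 i
      rcases (G.mem_R.1 (hv0 i)).2.2 with ⟨g1, g2⟩ | ⟨g1, g2⟩
      · left; omega
      · right; omega)
  have hfC : ∀ p, f p ∉ C := by
    rintro ⟨i, b⟩
    have h := hf (i, b)
    cases b <;> simp only [S, if_true, if_false, Bool.false_eq_true] at h <;>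
      exact (mem_sdiff.1 h).2
  have hfE0 : ∀ i : Fin q, G.E (a i) (v0 i) (f (i, false)) := by
    intro i
    have h := hf (i, false)
    simp only [S, if_false, Bool.false_eq_true] at h
    exact G.mem_N.1 (mem_sdiff.1 h).1
  have hfE1 : ∀ i : Fin q, G.E (v0 i) (a (i + 1)) (f (i, true)) := by
    intro i
    have h := hf (i, true)
    simp only [S, if_true] at h
    exact G.mem_N.1 (mem_sdiff.1 h).1
  have hfB : ∀ p, f p ∉ B := fun p h => hfC p (by rw [hC, mem_union]; exact Or.inl h)
  have hfv : ∀ p i, v0 i ≠ f p := fun p i h => hfC p (h ▸ hvC i)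
  refine ⟨fun i => if h : i < q then v0 ⟨i, h⟩ else 0,
    fun i => if h : i < q then f (⟨i, h⟩, false) else 0,
    fun i => if h : i < q then f (⟨i, h⟩, true) else 0, ?_, ?_, ?_, ?_⟩
  · intro i hi
    simp only [hi, dif_pos]
    exact ⟨hv0B _, hfB _, hfB _⟩
  · intro i j hi hj
    simp only [hi, hj, dif_pos]
    refine ⟨hfv _ _, hfv _ _, ?_⟩
    intro h
    have := hfi h
    simp at this
  · intro i j hi hj hij
    simp only [hi, hj, dif_pos]
    refine ⟨?_, ?_, ?_⟩
    · intro h; apply hij; simpa using hv0i h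
    · intro h; apply hij; simpa using hfi h
    · intro h; apply hij; simpa using hfi h
  · intro i hi
    simp only [hi, dif_pos]
    exact ⟨G.symm2 _ _ _ (hfE0 ⟨i, hi⟩), G.symm2 _ _ _ (hfE1 ⟨i, hi⟩)⟩

end Cfg

end Pool.Agent.TH486.LC
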