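import Mathlib

/-!
Weighted 3-graphs on the vertex set `{0, ..., n-1}` with decreasing weights: basic facts.
-/

set_option autoImplicit false

open Finset

namespace Pool.Agent.TH486.LC

/-- a 3-graph (given by a symmetric relation) on `{0,...,n-1}` with positive decreasing weights of
total mass one -/
structure Cfg where
  n : ℕ
  y : ℕ → ℝ
  E : ℕ → ℕ → ℕ → Prop
  anti : Antitone y
  pos : ∀ i, i < n → 0 < y i
  zero : ∀ i, n ≤ i → y i = 0
  total : ∑ i ∈ range n, y i = 1
  symm1 : ∀ a b c, E a b c → E b a c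
  symm2 : ∀ a b c, E a b c → E a c b
  ne : ∀ a b c, E a b c → a ≠ b
  lt : ∀ a b c, E a b c → c < n
  cover : ∀ a b, a < n → b < n → a ≠ b → ∃ c, E a b c

namespace Cfg

variable (G : Cfg)

open Classical in
/-- common neighbours -/
noncomputable def N (a b : ℕ) : Finset ℕ := (range G.n).filter (fun c => G.E a b c)

/-- sum of the `j` largest weights -/
noncomputable def T (j : ℕ) : ℝ := ∑ i ∈ range j, G.y i

/-- missing weight of a pair -/
noncomputable def w (a b : ℕ) : ℝ := 1 - G.y a - G.y b - ∑ c ∈ G.N a b, G.y c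

/-- missing weight of a vertex -/
noncomputable def M (a : ℕ) : ℝ := ∑ b ∈ (range G.n).erase a, G.y b * G.w a b

/-- sum of squares -/
noncomputable def s2 : ℝ := ∑ i ∈ range G.n, G.y i ^ 2

theorem mem_N {a b c : ℕ} : c ∈ G.N a b ↔ G.E a b c := by
  classical
  unfold N
  simp only [mem_filter, mem_range]
  exact ⟨fun h => h.2, fun h => ⟨G.lt _ _ _ h, h⟩⟩

theorem N_comm (a b : ℕ) : G.N a b = G.N b a := by
  ext c; rw [mem_N, mem_N]; exact ⟨G.symm1 _ _ _, G.symm1 _ _ _⟩

theorem w_comm (a b : ℕ) : G.w a b = G.w b a := by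
  unfold w; rw [N_comm]; ring

theorem nonneg (i : ℕ) : 0 ≤ G.y i := by
  rcases lt_or_ge i G.n with h | h
  · exact (G.pos i h).le
  · rw [G.zero i h]

theorem N_subset (a b : ℕ) : G.N a b ⊆ range G.n := by
  classical
  unfold N; exact filter_subset _ _

theorem left_notMem (a b : ℕ) : a ∉ G.N a b := by
  intro h
  rw [mem_N] at h
  exact G.ne _ _ _ (G.symm2 _ _ _ h) rfl

theorem right_notMem (a b : ℕ) : b ∉ G.N a b := by
  rw [N_comm]; exact G.left_notMem b a

/-- any `j` weights sum to at most `T j` -/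
theorem sum_le_T (k : ℕ) : ∀ s : Finset ℕ, s.card = k → ∑ i ∈ s, G.y i ≤ G.T k := by
  induction k with
  | zero =>
    intro s hs
    rw [Finset.card_eq_zero] at hs
    subst hs
    simp [T]
  | succ k ih =>
    intro s hs
    have hne : s.Nonempty := by
      rw [← Finset.card_pos]; omega
    set a := s.max' hne with ha
    have has : a ∈ s := s.max'_mem hne
    have h1 : k ≤ a := by
      have : s ⊆ range (a + 1) := by
        intro i hi
        rw [mem_range]
        exact Nat.lt_succ_of_le (s.le_max' i hi)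
      have := card_le_card this
      rw [hs, card_range] at this
      omega
    have h2 : (s.erase a).card = k := by
      rw [card_erase_of_mem has, hs]; rfl
    have h3 := ih _ h2
    rw [← Finset.add_sum_erase s _ has]
    unfold T at h3 ⊢
    rw [Finset.sum_range_succ]
    have := G.anti h1
    linarith

theorem T_mono {i j : ℕ} (h : i ≤ j) : G.T i ≤ G.T j := by
  unfold T
  apply Finset.sum_le_sum_of_subset_of_nonneg
  · exact range_mono h
  · intro k _ _; exact G.nonneg k

theorem sum_le_T' {k : ℕ} {s : Finset ℕ} (h : s.card ≤ k) : ∑ i ∈ s, G.y i ≤ G.T k :=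
  (G.sum_le_T _ s rfl).trans (G.T_mono h)

theorem T_n : G.T G.n = 1 := G.total

theorem T_le_one (j : ℕ) : G.T j ≤ 1 := by
  rcases le_total j G.n with h | h
  · rw [← G.T_n]; exact G.T_mono h
  · have : G.T j = G.T G.n := by
      unfold T
      symm
      apply Finset.sum_subset (range_mono h)
      intro i _ hi
      apply G.zero
      simpa using hi
    rw [this, G.T_n]

theorem T_lt_one {j : ℕ} (h : j < G.n) : G.T j < 1 := by
  have h1 : G.T (j + 1) ≤ 1 := G.T_le_one _
  unfold T at h1 ⊢
  rw [Finset.sum_range_succ] at h1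
  have := G.pos j h
  linarith

theorem T_nonneg (j : ℕ) : 0 ≤ G.T j := by
  unfold T
  exact Finset.sum_nonneg (fun i _ => G.nonneg i)

/-- the missing weight of a pair with few common neighbours is large -/
theorem w_ge {a b k : ℕ} (hab : a ≠ b) (h : (G.N a b).card + 2 ≤ k) : 1 - G.T k ≤ G.w a b := by
  have h1 : a ∉ insert b (G.N a b) := by
    rw [mem_insert]; push Not
    exact ⟨hab, G.left_notMem a b⟩
  have h2 : ∑ i ∈ insert a (insert b (G.N a b)), G.y i ≤ G.T k := by
    apply G.sum_le_T'
    rw [card_insert_of_notMem h1, card_insert_of_notMem (G.right_notMem a b)]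
    omega
  rw [sum_insert h1, sum_insert (G.right_notMem a b)] at h2
  unfold w
  linarith

theorem w_nonneg {a b : ℕ} (hab : a ≠ b) : 0 ≤ G.w a b := by
  have := G.w_ge hab (le_refl ((G.N a b).card + 2))
  have h2 := G.T_le_one ((G.N a b).card + 2)
  linarith

theorem M_nonneg (a : ℕ) : 0 ≤ G.M a := by
  unfold M
  apply Finset.sum_nonneg
  intro b hb
  exact mul_nonneg (G.nonneg b) (G.w_nonneg (ne_of_mem_erase hb).symm)

/-- lower bound for `M a` by two disjoint groups of vertices -/
theorem M_ge (a : ℕ) (s : Finset ℕ) (hs : s ⊆ range G.n) (ha : a ∉ s) :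
    ∑ b ∈ s, G.y b * G.w a b ≤ G.M a := by
  unfold M
  apply Finset.sum_le_sum_of_subset_of_nonneg
  · intro b hb
    rw [mem_erase]
    refine ⟨?_, hs hb⟩
    rintro rfl
    exact ha hb
  · intro b hb _
    exact mul_nonneg (G.nonneg b) (G.w_nonneg (ne_of_mem_erase hb).symm)

end Cfg

end Pool.Agent.TH486.LC
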