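import Pool.Agent.TH486.LC.Asm

/-!
Building the linear cycle.
-/

set_option autoImplicit false

open Finset

namespace Pool.Agent.TH486.LC

namespace Cfg

variable (G : Cfg)

/-- `G` contains a linear cycle of length `t` -/
def HasCycle (t : ℕ) : Prop :=
  ∃ f : ℕ → ℕ, (∀ i j, i < 2 * t → j < 2 * t → f i = f j → i = j) ∧
    ∀ i, i < t → G.E (f (2 * i)) (f (2 * i + 1)) (f ((2 * i + 2) % (2 * t)))

/-- interleaving four sequences -/
def weave (a μ v ν : ℕ → ℕ) (k : ℕ) : ℕ :=
  if k % 4 = 0 then a (k / 4) else if k % 4 = 1 then μ (k / 4)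
  else if k % 4 = 2 then v (k / 4) else ν (k / 4)

theorem weave0 (a μ v ν : ℕ → ℕ) (i : ℕ) : weave a μ v ν (4 * i) = a i := by
  unfold weave
  have h1 : 4 * i % 4 = 0 := by omega
  have h2 : 4 * i / 4 = i := by omega
  simp [h1, h2]

theorem weave1 (a μ v ν : ℕ → ℕ) (i : ℕ) : weave a μ v ν (4 * i + 1) = μ i := by
  unfold weave
  have h1 : (4 * i + 1) % 4 = 1 := by omega
  have h2 : (4 * i + 1) / 4 = i := by omega
  simp [h1, h2]

theorem weave2 (a μ v ν : ℕ → ℕ) (i : ℕ) : weave a μ v ν (4 * i + 2) = v i := by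
  unfold weave
  have h1 : (4 * i + 2) % 4 = 2 := by omega
  have h2 : (4 * i + 2) / 4 = i := by omega
  simp [h1, h2]

theorem weave3 (a μ v ν : ℕ → ℕ) (i : ℕ) : weave a μ v ν (4 * i + 3) = ν i := by
  unfold weave
  have h1 : (4 * i + 3) % 4 = 3 := by omega
  have h2 : (4 * i + 3) / 4 = i := by omega
  simp [h1, h2]

theorem four_cases (k : ℕ) :
    ∃ i, k = 4 * i ∨ k = 4 * i + 1 ∨ k = 4 * i + 2 ∨ k = 4 * i + 3 :=
  ⟨k / 4, by omega⟩

theorem cycle_even (q β J m : ℕ) (hJ : J + 1 = 2 * q + β) (hm : m + 1 = 3 * q + β)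
    (a : ℕ → ℕ) (B : Finset ℕ) (hB : B.card ≤ β) (haB : ∀ i, i ≤ q → a i ∈ B)
    (hai : ∀ i j, i < q → j < q → a i = a j → i = j) (haq : a q = a 0)
    (hR : ∀ i, i < q → q ≤ (G.R B J m (a i) (a (i + 1))).card) :
    G.HasCycle (2 * q) := by
  obtain ⟨v, μ, ν, h1, h2, h3, h4⟩ := G.assemble q β J m hJ hm a B hB haB hR
  refine ⟨weave a μ v ν, ?_, ?_⟩
  · intro k l hk hl hkl
    obtain ⟨i, hi⟩ := four_cases k
    obtain ⟨j, hj⟩ := four_cases l
    rcases hi with rfl | rfl | rfl | rfl <;> rcases hj with rfl | rfl | rfl | rfl <;>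
      simp only [weave0, weave1, weave2, weave3] at hkl
    · have := hai i j (by omega) (by omega) hkl; omega
    · exact absurd (hkl ▸ haB i (by omega)) (h1 j (by omega)).2.1
    · exact absurd (hkl ▸ haB i (by omega)) (h1 j (by omega)).1
    · exact absurd (hkl ▸ haB i (by omega)) (h1 j (by omega)).2.2
    · exact absurd (hkl ▸ haB j (by omega)) (h1 i (by omega)).2.1
    · by_contra hne
      exact (h3 i j (by omega) (by omega) (by omega)).2.1 hkl
    · exact absurd hkl.symm (h2 j i (by omega) (by omega)).1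
    · exact absurd hkl (h2 i j (by omega) (by omega)).2.2
    · exact absurd (hkl ▸ haB j (by omega)) (h1 i (by omega)).1
    · exact absurd hkl (h2 i j (by omega) (by omega)).1
    · by_contra hne
      exact (h3 i j (by omega) (by omega) (by omega)).1 hkl
    · exact absurd hkl (h2 i j (by omega) (by omega)).2.1
    · exact absurd (hkl ▸ haB j (by omega)) (h1 i (by omega)).2.2
    · exact absurd hkl.symm (h2 j i (by omega) (by omega)).2.2
    · exact absurd hkl.symm (h2 j i (by omega) (by omega)).2.1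
    · by_contra hne
      exact (h3 i j (by omega) (by omega) (by omega)).2.2 hkl
  · intro k hk
    rcases Nat.even_or_odd' k with ⟨i, rfl | rfl⟩
    · have e1 : 2 * (2 * i) = 4 * i := by ring
      have e2 : (2 * (2 * i) + 2) % (2 * (2 * q)) = 4 * i + 2 := by
        rw [Nat.mod_eq_of_lt (by omega)]; ring
      rw [e2, e1, weave0, weave1, weave2]
      exact (h4 i (by omega)).1
    · have e1 : 2 * (2 * i + 1) = 4 * i + 2 := by ring
      have e1' : 2 * (2 * i + 1) + 1 = 4 * i + 3 := by ring
      by_cases hc : i + 1 < q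
      · have e2 : (2 * (2 * i + 1) + 2) % (2 * (2 * q)) = 4 * (i + 1) := by
          rw [Nat.mod_eq_of_lt (by omega)]; ring
        rw [e2, e1', e1, weave0, weave2, weave3]
        exact (h4 i (by omega)).2
      · have e3 : i + 1 = q := by omega
        have e2 : (2 * (2 * i + 1) + 2) % (2 * (2 * q)) = 4 * 0 := by
          have : 2 * (2 * i + 1) + 2 = 2 * (2 * q) := by omega
          rw [this, Nat.mod_self]
        rw [e2, e1', e1, weave0, weave2, weave3]
        have := (h4 i (by omega)).2
        rw [e3, haq] at this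
        exact this

theorem cycle_odd (q β J m : ℕ) (hJ : J + 1 = 2 * q + β) (hm : m + 1 = 3 * q + β)
    (a : ℕ → ℕ) (B : Finset ℕ) (hB : B.card ≤ β) (haB : ∀ i, i ≤ q → a i ∈ B)
    (hai : ∀ i j, i ≤ q → j ≤ q → a i = a j → i = j)
    (z : ℕ) (hzB : z ∈ B) (hza : ∀ i, i ≤ q → a i ≠ z) (hzE : G.E (a q) z (a 0))
    (hR : ∀ i, i < q → q ≤ (G.R B J m (a i) (a (i + 1))).card) :
    G.HasCycle (2 * q + 1) := by
  obtain ⟨v, μ, ν, h1, h2, h3, h4⟩ := G.assemble q β J m hJ hm a B hB haB hR
  set μ' : ℕ → ℕ := fun i => if i = q then z else μ i with hμ'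
  have hμq : μ' q = z := by simp [hμ']
  have hμl : ∀ i, i < q → μ' i = μ i := fun i hi => by simp [hμ', hi.ne]
  have hμa : ∀ i j, i ≤ q → j ≤ q → μ' i ≠ a j := by
    intro i j hi hj
    rcases Nat.lt_or_ge i q with h | h
    · rw [hμl i h]
      intro h5
      exact (h1 i h).2.1 (h5 ▸ haB j hj)
    · have : i = q := by omega
      rw [this, hμq]
      exact (hza j hj).symm
  have hμv : ∀ i j, i ≤ q → j < q → v j ≠ μ' i ∧ μ' i ≠ ν j := by
    intro i j hi hj
    rcases Nat.lt_or_ge i q with h | h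
    · rw [hμl i h]
      exact ⟨(h2 j i hj h).1, (h2 i j h hj).2.2⟩
    · have : i = q := by omega
      rw [this, hμq]
      refine ⟨?_, ?_⟩
      · intro h5; exact (h1 j hj).1 (h5 ▸ hzB)
      · intro h5; exact (h1 j hj).2.2 (h5 ▸ hzB)
  have hμμ : ∀ i j, i ≤ q → j ≤ q → μ' i = μ' j → i = j := by
    intro i j hi hj hij
    rcases Nat.lt_or_ge i q with h | h <;> rcases Nat.lt_or_ge j q with h' | h'
    · rw [hμl i h, hμl j h'] at hij
      by_contra hne
      exact (h3 i j h h' hne).2.1 hij
    · have : j = q := by omega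
      rw [this, hμq, hμl i h] at hij
      exact absurd (hij ▸ hzB) (h1 i h).2.1
    · have : i = q := by omega
      rw [this, hμq, hμl j h'] at hij
      exact absurd (hij ▸ hzB) (h1 j h').2.1
    · omega
  refine ⟨weave a μ' v ν, ?_, ?_⟩
  · intro k l hk hl hkl
    obtain ⟨i, hi⟩ := four_cases k
    obtain ⟨j, hj⟩ := four_cases l
    rcases hi with rfl | rfl | rfl | rfl <;> rcases hj with rfl | rfl | rfl | rfl <;>
      simp only [weave0, weave1, weave2, weave3] at hkl
    · have := hai i j (by omega) (by omega) hkl; omega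
    · exact absurd hkl.symm (hμa j i (by omega) (by omega))
    · exact absurd (hkl ▸ haB i (by omega)) (h1 j (by omega)).1
    · exact absurd (hkl ▸ haB i (by omega)) (h1 j (by omega)).2.2
    · exact absurd hkl (hμa i j (by omega) (by omega))
    · have := hμμ i j (by omega) (by omega) hkl; omega
    · exact absurd hkl.symm (hμv i j (by omega) (by omega)).1
    · exact absurd hkl (hμv i j (by omega) (by omega)).2
    · exact absurd (hkl ▸ haB j (by omega)) (h1 i (by omega)).1
    · exact absurd hkl (hμv j i (by omega) (by omega)).1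
    · by_contra hne
      exact (h3 i j (by omega) (by omega) (by omega)).1 hkl
    · exact absurd hkl (h2 i j (by omega) (by omega)).2.1
    · exact absurd (hkl ▸ haB j (by omega)) (h1 i (by omega)).2.2
    · exact absurd hkl.symm (hμv j i (by omega) (by omega)).2
    · exact absurd hkl.symm (h2 j i (by omega) (by omega)).2.1
    · by_contra hne
      exact (h3 i j (by omega) (by omega) (by omega)).2.2 hkl
  · intro k hk
    rcases Nat.even_or_odd' k with ⟨i, rfl | rfl⟩
    · have e1 : 2 * (2 * i) = 4 * i := by ring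
      by_cases hc : i < q
      · have e2 : (2 * (2 * i) + 2) % (2 * (2 * q + 1)) = 4 * i + 2 := by
          rw [Nat.mod_eq_of_lt (by omega)]; ring
        rw [e2, e1, weave0, weave1, weave2, hμl i hc]
        exact (h4 i hc).1
      · have e3 : i = q := by omega
        have e2 : (2 * (2 * i) + 2) % (2 * (2 * q + 1)) = 4 * 0 := by
          have : 2 * (2 * i) + 2 = 2 * (2 * q + 1) := by omega
          rw [this, Nat.mod_self]
        rw [e2, e1, weave0, weave1, weave0, e3, hμq]
        exact hzE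
    · have e1 : 2 * (2 * i + 1) = 4 * i + 2 := by ring
      have e1' : 2 * (2 * i + 1) + 1 = 4 * i + 3 := by ring
      have e2 : (2 * (2 * i + 1) + 2) % (2 * (2 * q + 1)) = 4 * (i + 1) := by
        rw [Nat.mod_eq_of_lt (by omega)]; ring
      rw [e2, e1', e1, weave0, weave2, weave3]
      exact (h4 i (by omega)).2

end Cfg

end Pool.Agent.TH486.LC
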