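import Mathlib

/-!
Definitions used in the statement about Lagrangian densities of linear cycles.
-/

set_option autoImplicit false

open Finset

namespace Pool.Agent.TH486.LC

/-- a 3-graph on `V` is given by its set of edges; every edge has three vertices -/
def IsThreeGraph {V : Type} (G : Finset (Finset V)) : Prop := ∀ e ∈ G, e.card = 3

/-- `G` has a subgraph isomorphic to `F` -/
def Contains {W V : Type} [DecidableEq V] (F : Finset (Finset W)) (G : Finset (Finset V)) : Prop :=
  ∃ f : W → V, Function.Injective f ∧ ∀ e ∈ F, e.image f ∈ G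

/-- the Lagrangian: the maximum of `∑ x_i x_j x_k` over the edges, over all weight vectors -/
noncomputable def lagrangian {V : Type} [Fintype V] (G : Finset (Finset V)) : ℝ :=
  sSup ((fun x : V → ℝ => ∑ e ∈ G, ∏ i ∈ e, x i) '' stdSimplex ℝ V)

/-- the complete 3-graph on `m` vertices -/
def complete (m : ℕ) : Finset (Finset (Fin m)) := (univ : Finset (Fin m)).powersetCard 3

/-- the linear cycle of length `t`: vertices modulo `2 t`, edges `2i, 2i+1, 2i+2` for `i < t` -/
def linCycle (t : ℕ) : Finset (Finset (ZMod (2 * t))) :=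
  (range t).image (fun i : ℕ =>
    ({((2 * i : ℕ) : ZMod (2 * t)), ((2 * i + 1 : ℕ) : ZMod (2 * t)),
      ((2 * i + 2 : ℕ) : ZMod (2 * t))} : Finset (ZMod (2 * t))))

/-- the Lagrangian density: the supremum of `3!` times the Lagrangian of `F`-free 3-graphs -/
noncomputable def lagrangianDensity {W : Type} (F : Finset (Finset W)) : ℝ :=
  sSup {y : ℝ | ∃ (n : ℕ) (G : Finset (Finset (Fin n))),
    IsThreeGraph G ∧ ¬ Contains F G ∧ y = 6 * lagrangian G}

end Pool.Agent.TH486.LC
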