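import Mathlib

/-!
Real inequalities.
-/

set_option autoImplicit false

namespace Pool.Agent.TH486.LC

theorem lt_mul_min {z u x y : ℝ} (h1 : z < u * x) (h2 : z < u * y) :
    z < u * min x y := by
  rcases le_total x y with h | h
  · rw [min_eq_left h]; exact h1
  · rw [min_eq_right h]; exact h2

/-! ### the bound against the three quarter block -/

theorem ud_even {q D : ℝ} (hq : 2 ≤ q) (hD : D ≤ 3 / (4 * q - 1) - 2 / (4 * q - 1) ^ 2) :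
    (2 * q - 1) * D ≤ 3 / 2 := by
  have e : (2 * q - 1) * (3 / (4 * q - 1) - 2 / (4 * q - 1) ^ 2) ≤ 3 / 2 := by
    have hp : 0 < 4 * q - 1 := by linarith
    rw [div_sub_div _ _ hp.ne' (by positivity), mul_div_assoc', div_le_div_iff₀ (by positivity) (by norm_num)]
    nlinarith [mul_pos hp hp, mul_pos (mul_pos hp hp) hp]
  exact (mul_le_mul_of_nonneg_left hD (by linarith)).trans e

theorem ud_odd {q D : ℝ} (hq : 3 ≤ q) (hD : D ≤ 3 / (4 * q + 1) - 2 / (4 * q + 1) ^ 2) :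
    (2 * q + 1) * D ≤ 37 / 24 := by
  have e : (2 * q + 1) * (3 / (4 * q + 1) - 2 / (4 * q + 1) ^ 2) ≤ 37 / 24 := by
    rw [div_sub_div _ _ (by linarith) (by positivity), mul_div_assoc', div_le_div_iff₀ (by positivity) (by norm_num)]
    nlinarith [mul_nonneg (sub_nonneg.2 hq) (sub_nonneg.2 hq), mul_nonneg (mul_nonneg (sub_nonneg.2 hq) (sub_nonneg.2 hq)) (sub_nonneg.2 hq)]
  exact (mul_le_mul_of_nonneg_left hD (by linarith)).trans e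

theorem a_even {q A D : ℝ} (hq : 4 ≤ q) (hD : D ≤ 3 / (4 * q - 1) - 2 / (4 * q - 1) ^ 2)
    (hquad : 2 * A + (2 * q - 1 - 2) * (A ^ 2 / (2 * q - 1)) ≤ (2 * q - 1) * D) :
    A < 9 / 13 := by
  by_contra hc
  push Not at hc
  have h1 := ud_even (by linarith) hD
  have h2 : 5 / 7 * A ^ 2 ≤ (2 * q - 1 - 2) * (A ^ 2 / (2 * q - 1)) := by
    rw [mul_div_assoc', le_div_iff₀ (by linarith)]
    nlinarith [sq_nonneg A]
  nlinarith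

theorem a_odd {q A D : ℝ} (hq : 3 ≤ q) (hD : D ≤ 3 / (4 * q + 1) - 2 / (4 * q + 1) ^ 2)
    (hquad : 2 * A + (2 * q + 1 - 2) * (A ^ 2 / (2 * q + 1)) ≤ (2 * q + 1) * D) :
    A < 7 / 11 := by
  by_contra hc
  push Not at hc
  have h1 := ud_odd hq hD
  have h2 : 5 / 7 * A ^ 2 ≤ (2 * q + 1 - 2) * (A ^ 2 / (2 * q + 1)) := by
    rw [mul_div_assoc', le_div_iff₀ (by linarith)]
    nlinarith [sq_nonneg A]
  nlinarith

theorem a_three {A D : ℝ} (hD : D ≤ 31 / 121)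
    (hquad : 2 * A + (5 - 2) * (A ^ 2 / 5) ≤ 5 * D) : A < 3 / 5 := by
  by_contra hc
  push Not at hc
  nlinarith

theorem e2_even {q A B D z : ℝ} (hq : 4 ≤ q) (hA : 0 ≤ A) (hB : 0 ≤ B)
    (hBA : (2 * q - 1) * B ≤ q * A) (hAB : A + B < 1)
    (hD : D ≤ 3 / (4 * q - 1) - 2 / (4 * q - 1) ^ 2)
    (hz : (q + 1) * z ≤ 2 * ((2 * q - 1) * D - 2 * A - (2 * q - 1 - 2) * (A ^ 2 / (2 * q - 1))
      - (2 * q - 1) * (B ^ 2 / q))) :
    z < (1 - A) * (1 - A - B) := by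
  have h1 := ud_even (by linarith) hD
  have h2 : 5 / 7 * A ^ 2 ≤ (2 * q - 1 - 2) * (A ^ 2 / (2 * q - 1)) := by
    rw [mul_div_assoc', le_div_iff₀ (by linarith)]
    nlinarith [sq_nonneg A]
  have h3 : 7 / 4 * B ^ 2 ≤ (2 * q - 1) * (B ^ 2 / q) := by
    rw [mul_div_assoc', le_div_iff₀ (by linarith)]
    nlinarith [sq_nonneg B]
  have h4 : B ≤ 4 / 7 * A := by
    by_contra hc
    push Not at hc
    nlinarith
  have h5 : 0 < 5 / 2 * ((1 - A) * (1 - A - B)) - (3 / 2 - 2 * A - 5 / 7 * A ^ 2 - 7 / 4 * B ^ 2) := by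
    nlinarith [sq_nonneg (A - 1/3), sq_nonneg (B - 4/7*A), mul_nonneg hA hB,
      mul_nonneg (sub_nonneg.2 h4) hB, mul_nonneg (sub_nonneg.2 h4) hA, sq_nonneg (A+B-1)]
  have hR : 0 < (1 - A) * (1 - A - B) := mul_pos (by linarith) (by linarith)
  have h6 : (q + 1) * z < (q + 1) * ((1 - A) * (1 - A - B)) := by nlinarith
  exact lt_of_mul_lt_mul_left h6 (by linarith)

theorem e2_odd {q A B D z : ℝ} (hq : 3 ≤ q) (hA : 0 ≤ A) (hB : 0 ≤ B)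
    (hBA : (2 * q + 1) * B ≤ q * A) (hAB : A + B < 1)
    (hD : D ≤ 3 / (4 * q + 1) - 2 / (4 * q + 1) ^ 2)
    (hz : (q + 2) * z ≤ 2 * ((2 * q + 1) * D - 2 * A - (2 * q + 1 - 2) * (A ^ 2 / (2 * q + 1))
      - (2 * q + 1) * (B ^ 2 / q))) :
    z < (1 - A) * (1 - A - B) := by
  have h1 := ud_odd hq hD
  have h2 : 5 / 7 * A ^ 2 ≤ (2 * q + 1 - 2) * (A ^ 2 / (2 * q + 1)) := by
    rw [mul_div_assoc', le_div_iff₀ (by linarith)]
    nlinarith [sq_nonneg A]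
  have h3 : 2 * B ^ 2 ≤ (2 * q + 1) * (B ^ 2 / q) := by
    rw [mul_div_assoc', le_div_iff₀ (by linarith)]
    nlinarith [sq_nonneg B]
  have h4 : B ≤ 1 / 2 * A := by
    by_contra hc
    push Not at hc
    nlinarith
  have h5 : 0 < 5 / 2 * ((1 - A) * (1 - A - B)) - (37 / 24 - 2 * A - 5 / 7 * A ^ 2 - 2 * B ^ 2) := by
    nlinarith [sq_nonneg (A - 1/3), sq_nonneg (B - 1/2*A), mul_nonneg hA hB,
      mul_nonneg (sub_nonneg.2 h4) hB, mul_nonneg (sub_nonneg.2 h4) hA, sq_nonneg (A+B-1)]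
  have hR : 0 < (1 - A) * (1 - A - B) := mul_pos (by linarith) (by linarith)
  have h6 : (q + 2) * z < (q + 2) * ((1 - A) * (1 - A - B)) := by nlinarith
  exact lt_of_mul_lt_mul_left h6 (by linarith)

theorem e2_three {A B D z : ℝ} (hA : 0 ≤ A) (hB : 0 ≤ B)
    (hBA : 5 * B ≤ 3 * A) (hD : D ≤ 31 / 121)
    (hz : 4 * z ≤ 2 * (5 * D - 2 * A - (5 - 2) * (A ^ 2 / 5) - 5 * (B ^ 2 / 3))) :
    z < (1 - A) * (1 - A - B) := by
  have h4 : B ≤ 3 / 5 * A := by linarith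
  have h5 : 0 < 2 * ((1-A)*(1-A-B)) - (155/121 - 2*A - 3/5*A^2 - 5/3*B^2) := by
    nlinarith [sq_nonneg (A - 1/3), sq_nonneg (B - 3/5*A), mul_nonneg hA hB,
      mul_nonneg (sub_nonneg.2 h4) hB, mul_nonneg (sub_nonneg.2 h4) hA, sq_nonneg (A+B-1)]
  nlinarith

theorem e2_two {A B D z : ℝ} (hA : 0 ≤ A) (hB : 0 ≤ B)
    (hBA : 3 * B ≤ 2 * A) (hD : D ≤ 19 / 49)
    (hz : 3 * z ≤ 2 * (3 * D - 2 * A - (3 - 2) * (A ^ 2 / 3) - 3 * (B ^ 2 / 2))) :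
    z < (1 - A) * (1 - A - B) := by
  have h4 : B ≤ 2 / 3 * A := by linarith
  have h5 : 0 < 3/2*((1-A)*(1-A-B)) - (57/49 - 2*A - 1/3*A^2 - 3/2*B^2) := by
    nlinarith [sq_nonneg (A - 2/7), sq_nonneg (B - 2/3*A), mul_nonneg hA hB,
      mul_nonneg (sub_nonneg.2 h4) hB, mul_nonneg (sub_nonneg.2 h4) hA, sq_nonneg (A+B-1)]
  nlinarith

theorem e2_five {A B D z : ℝ} (hA : 0 ≤ A) (hB : 0 ≤ B)
    (hBA : 5 * B ≤ 2 * A) (hD : D ≤ 25 / 81)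
    (hz : 5 * z ≤ 2 * (5 * D - 2 * A - (5 - 2) * (A ^ 2 / 5) - 5 * (B ^ 2 / 2))) :
    z < (1 - A) * (1 - A - B) := by
  have h4 : B ≤ 2 / 5 * A := by linarith
  have h5 : 0 < 5/2*((1-A)*(1-A-B)) - (125/81 - 2*A - 3/5*A^2 - 5/2*B^2) := by
    nlinarith [sq_nonneg (A - 4/9), sq_nonneg (B - 2/5*A), mul_nonneg hA hB,
      mul_nonneg (sub_nonneg.2 h4) hB, mul_nonneg (sub_nonneg.2 h4) hA, sq_nonneg (A+B-1)]
  nlinarith

/-! ### the bound against the full block -/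

theorem e1_gen {N A T D m z : ℝ} (hm : 2 < m) (hT : T < 1) (hT0 : 0 ≤ T)
    (hN : 0 < N) (hA : 4 ≤ N * (1 - A))
    (hD : D ≤ 3 / m - 2 / m ^ 2)
    (hz : N * z ≤ 2 * (m * D - 2 * T - (m - 2) * (T ^ 2 / m))) :
    z < (1 - A) * (2 * (1 - T)) := by
  have hm0 : 0 < m := by linarith
  have h1 : m * D ≤ 3 - 2 / m := by
    have e : m * (3 / m - 2 / m ^ 2) = 3 - 2 / m := by field_simp
    rw [← e]
    exact mul_le_mul_of_nonneg_left hD hm0.le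
  have e2 : (m - 2) * (T ^ 2 / m) = T ^ 2 - 2 / m * T ^ 2 := by field_simp
  rw [e2] at hz
  set u := 2 / m with hu
  have hu0 : 0 < u := by positivity
  have h3 : 3 - u - 2 * T - (T ^ 2 - u * T ^ 2) < 4 * (1 - T) := by
    nlinarith [mul_pos hu0 (sub_pos.2 hT), mul_nonneg hu0.le (mul_nonneg hT0 (sub_pos.2 hT).le),
      sq_nonneg (1 - T), mul_pos (sub_pos.2 hT) (sub_pos.2 hT)]
  have h4 : N * z < N * ((1 - A) * (2 * (1 - T))) := by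
    have h5 : 4 * (1 - T) ≤ (N * (1 - A)) * (1 - T) :=
      mul_le_mul_of_nonneg_right hA (sub_pos.2 hT).le
    nlinarith
  exact lt_of_mul_lt_mul_left h4 hN.le

theorem e1_two {A T D z : ℝ} (hA : 0 ≤ A) (hAT : A ≤ T) (hT : T < 1) (hD : D ≤ 19 / 49)
    (hz : 7 * z ≤ 2 * ((3 + 4) * D - 2 * T - (3 + 4 - 2) * (A ^ 2 / 3 + (T - A) ^ 2 / 4))) :
    z < (1 - A) * (2 * (1 - T)) := by
  have key : 0 < (1-A)*(1-T) - 19/49 + 5/7*(A^2/3 + (T - A)^2/4) + 2/7*T := by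
    nlinarith [sq_nonneg ((A-3/7) - 27/35*(1-T)), mul_pos (sub_pos.2 hT) (sub_pos.2 hT),
      mul_nonneg hA (sub_pos.2 hT).le, mul_nonneg (sub_nonneg.2 hAT) (sub_pos.2 hT).le]
  nlinarith

theorem e1_five {A T D z : ℝ} (hA : 0 ≤ A) (hAT : A ≤ T) (hT : T < 1) (hD : D ≤ 25 / 81)
    (hz : 9 * z ≤ 2 * ((5 + 4) * D - 2 * T - (5 + 4 - 2) * (A ^ 2 / 5 + (T - A) ^ 2 / 4))) :
    z < (1 - A) * (2 * (1 - T)) := by
  have key : 0 < (1-A)*(1-T) - (1/9)*(25/9 - 7*(A^2/5 + (T - A)^2/4) - 2*T) := by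
    have hC := sub_nonneg.2 hAT
    nlinarith [sq_nonneg ((A-5/9) - 55/63*(1-T)), sq_nonneg (A-5/9),
      mul_pos (sub_pos.2 hT) (sub_pos.2 hT),
      mul_nonneg hA (sub_pos.2 hT).le, mul_nonneg hC (sub_pos.2 hT).le, mul_nonneg hA hC]
  nlinarith


/-! ### the case `t = 5` -/

theorem i2_poly {P Q B : ℝ} (hB : B ≤ Q) :
    0 < (1 - P - Q) * (1 - P - Q - B) + 4 / 9 * P ^ 2 + 1 / 2 * Q ^ 2 + B ^ 2 + 2 / 3 * P + Q
      - 50 / 81 := by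
  have h1 := sq_nonneg ((Q - B) + (17 / 22 - 3 * P + 3 * (2 / 3 * P - Q)) / 2)
  have h2 := sq_nonneg ((2 / 3 * P - Q) - 19 / 15 * P + 37 / 110)
  have h3 := sq_nonneg (P - 219 / 737)
  linarith

theorem i2_e2 {y0 y3 P Q B s D z : ℝ} (hB : B ≤ Q) (h0 : P ≤ 3 * y0) (h3 : Q ≤ 2 * y3)
    (hp0 : P / 3 + y0 ≤ 1) (hp3 : Q / 2 + y3 ≤ 1)
    (hs : P ^ 2 / 3 + Q ^ 2 / 2 + B ^ 2 / 2 ≤ s) (hD : D ≤ 25 / 81)
    (hz : z ≤ (D - s - 2 * (y0 * (1 - y0))) + (D - s - 2 * (y3 * (1 - y3)))) :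
    z < (1 - (P + Q)) * (1 - (P + Q) - B) := by
  have h1 : P / 3 * (1 - P / 3) ≤ y0 * (1 - y0) := by
    nlinarith [mul_nonneg (sub_nonneg.2 hp0) (sub_nonneg.2 h0)]
  have h2 : Q / 2 * (1 - Q / 2) ≤ y3 * (1 - y3) := by
    nlinarith [mul_nonneg (sub_nonneg.2 hp3) (sub_nonneg.2 h3)]
  have h4 := i2_poly (P := P) hB
  nlinarith

theorem i3_poly {h p r B : ℝ} (hBr : B ≤ r) (hrp : r ≤ p)
    (hK : 0 ≤ 25 / 81 - 2 * h + h ^ 2 - p ^ 2 / 2 - r ^ 2 / 2 - B ^ 2 / 2) :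
    0 < (1 - h - p - r) * (1 - h - p - r - B) - 50 / 81 + 2 * h ^ 2 + 3 / 2 * p - h * p / 2
      + r + r ^ 2 / 2 + B ^ 2 := by
  have h1 := sq_nonneg (h - 1 / 4 + 9 / 32 * p + 3 / 8 * r + 3 / 16 * B)
  have h2 := sq_nonneg (p - 88 / 367 + 276 / 367 * r + 138 / 367 * B)
  have h3 := sq_nonneg (r - 2761 / 23156 + 93 / 1654 * B)
  have h4 := sq_nonneg (B - 14619 / 129962)
  linarith

theorem i3_poly' {h p r C : ℝ} (hBr : C ≤ 2 * r) (hrp : r ≤ p)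
    (hK : 0 ≤ 25 / 81 - 2 * h + h ^ 2 - p ^ 2 / 2 - r ^ 2 / 2 - C ^ 2 / 4) :
    0 < 2 * ((1 - h - p - r) * (1 - h - p - r - C)) - 50 / 81 + 2 * h ^ 2 + 3 / 2 * p - h * p / 2
      + r + r ^ 2 / 2 + C ^ 2 / 2 := by
  have h1 := sq_nonneg (h - 5 / 11 + 21 / 44 * p + 6 / 11 * r + 3 / 11 * C)
  have h2 := sq_nonneg (p - 372 / 703 + 552 / 703 * r + 276 / 703 * C)
  have h3 := sq_nonneg (r - 431 / 1592 + 93 / 1592 * C)
  have h4 := sq_nonneg (C - 232 / 491)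
  linarith

theorem i3_common {h b c d e s D z : ℝ} {X : ℝ} (hbc : c ≤ b) (hde : e ≤ d)
    (hh : 0 ≤ h) (hc1 : 2 * c ≤ 1) (hd1 : d + e + 2 * e ≤ 2)
    (hs : h ^ 2 + b ^ 2 + c ^ 2 + d ^ 2 + e ^ 2 + X ≤ s) (hD : D ≤ 25 / 81)
    (hK : 0 ≤ D - s - 2 * (h * (1 - h)))
    (hz : z ≤ (D - s - 2 * (b * (1 - b))) + (D - s - 2 * (d * (1 - d))) - c * (1 - h - b - c)) :
    z ≤ 50 / 81 - 2 * h ^ 2 - 3 / 2 * (b + c) + h * (b + c) / 2 - (d + e) - (d + e) ^ 2 / 2 - 2 * X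
    ∧ 0 ≤ 25 / 81 - 2 * h + h ^ 2 - (b + c) ^ 2 / 2 - (d + e) ^ 2 / 2 - X := by
  constructor
  · have h1 : 0 ≤ (b - c) * (1 + h - 2 * c) := mul_nonneg (by linarith) (by linarith)
    have h2 : 0 ≤ (d - e) * (2 - (d + e + 2 * e)) := mul_nonneg (by linarith) (by linarith)
    nlinarith
  · nlinarith [sq_nonneg (b - c), sq_nonneg (d - e)]

end Pool.Agent.TH486.LC
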