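import Pool.Agent.TH486.LC.Num
import Pool.Agent.TH486.LC.Ineq

/-!
Linear cycles of even length.
-/

set_option autoImplicit false

open Finset

namespace Pool.Agent.TH486.LC

namespace Cfg

variable (G : Cfg)

/-- first half: comparison with the three quarter block (general form) -/
theorem two_even {q : ℕ} (hq : 2 ≤ q) {D : ℝ} (hK : ∀ i, 0 ≤ G.K D i)
    {a a' : ℕ} (haa : a < a') (ha' : a' < q) :
    ((q : ℝ) + 1) * (G.K D a + G.K D a') ≤ 2 * ((2 * (q : ℝ) - 1) * D - 2 * G.T (2 * q - 1)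
      - (2 * (q : ℝ) - 1 - 2) * (G.T (2 * q - 1) ^ 2 / (2 * (q : ℝ) - 1))
      - (2 * (q : ℝ) - 1) * ((G.T (3 * q - 1) - G.T (2 * q - 1)) ^ 2 / q)) := by
  have hUc : ((2 * q - 1 : ℕ) : ℝ) = 2 * (q : ℝ) - 1 := by
    rw [Nat.cast_sub (by omega)]; push_cast; ring
  have hqr : (2 : ℝ) ≤ q := by exact_mod_cast hq
  have hac : (a : ℝ) + 1 ≤ a' := by exact_mod_cast haa
  have hac' : (a' : ℝ) + 1 ≤ q := by exact_mod_cast ha'
  have eJ : 2 * q - 1 + q = 3 * q - 1 := by omega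
  have p2 : ((q : ℝ) + 1) * (G.K D a + G.K D a') ≤ 2 * ∑ i ∈ range (2 * q - 1), G.K D i :=
    G.pair_bound hK haa.le (by omega) (by rw [hUc]; linarith) (by rw [hUc]; linarith)
  have s2 := G.sumK_le D (U := 2 * q - 1) (p := q) (by omega) (by omega)
  rw [eJ, hUc] at s2
  linarith

/-- second half: comparison with the full block (general form) -/
theorem one_even {q : ℕ} (hq : 2 ≤ q) {D : ℝ} (hK : ∀ i, 0 ≤ G.K D i)
    {a a' : ℕ} (haa : a < a') (ha' : a' < q) :
    (3 * (q : ℝ) + 1) * (G.K D a + G.K D a') ≤ 2 * ((4 * (q : ℝ) - 1) * D - 2 * G.T (4 * q - 1)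
      - (4 * (q : ℝ) - 1 - 2) * (G.T (4 * q - 1) ^ 2 / (4 * (q : ℝ) - 1))) := by
  have hmc : ((4 * q - 1 : ℕ) : ℝ) = 4 * (q : ℝ) - 1 := by
    rw [Nat.cast_sub (by omega)]; push_cast; ring
  have hqr : (2 : ℝ) ≤ q := by exact_mod_cast hq
  have hac : (a : ℝ) + 1 ≤ a' := by exact_mod_cast haa
  have hac' : (a' : ℝ) + 1 ≤ q := by exact_mod_cast ha'
  have p1 : (3 * (q : ℝ) + 1) * (G.K D a + G.K D a') ≤ 2 * ∑ i ∈ range (4 * q - 1), G.K D i :=
    G.pair_bound hK haa.le (by omega) (by rw [hmc]; linarith) (by rw [hmc]; linarith)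
  have s1 := G.sumK_le_one D (m := 4 * q - 1) (by omega)
  rw [hmc] at s1
  linarith

theorem bA_even {q : ℕ} (hq : 2 ≤ q) :
    (2 * (q : ℝ) - 1) * (G.T (3 * q - 1) - G.T (2 * q - 1)) ≤ q * G.T (2 * q - 1) := by
  have hUc : ((2 * q - 1 : ℕ) : ℝ) = 2 * (q : ℝ) - 1 := by
    rw [Nat.cast_sub (by omega)]; push_cast; ring
  have eJ : 2 * q - 1 + q = 3 * q - 1 := by omega
  have hBA := G.diff_le (2 * q - 1) q
  rwa [eJ, hUc] at hBA

theorem quad_even {q : ℕ} (hq : 2 ≤ q) {D : ℝ}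
    (hD : D ≤ 3 / (4 * (q : ℝ) - 1) - 2 / (4 * (q : ℝ) - 1) ^ 2) (hK : ∀ i, 0 ≤ G.K D i) :
    2 * G.T (2 * q - 1) + (2 * (q : ℝ) - 1 - 2) * (G.T (2 * q - 1) ^ 2 / (2 * (q : ℝ) - 1))
      ≤ (2 * (q : ℝ) - 1) * D := by
  have hUc : ((2 * q - 1 : ℕ) : ℝ) = 2 * (q : ℝ) - 1 := by
    rw [Nat.cast_sub (by omega)]; push_cast; ring
  have hqr : (2 : ℝ) ≤ q := by exact_mod_cast hq
  have hDlt : D < 3 / 4 := by
    refine hD.trans_lt ?_
    have h1 : 0 < 4 * (q : ℝ) - 1 := by linarith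
    have h2 : 3 / (4 * (q : ℝ) - 1) ≤ 3 / 7 := by
      apply div_le_div_of_nonneg_left (by norm_num) (by norm_num) (by linarith)
    have h3 : 0 < 2 / (4 * (q : ℝ) - 1) ^ 2 := by positivity
    linarith
  have hquad := G.T_quad hDlt (hK 0) (U := 2 * q - 1) (by omega)
  rwa [hUc] at hquad

theorem key_two {D : ℝ} (hD : D ≤ 19 / 49)
    (hn : 8 ≤ G.n) (hK : ∀ i, 0 ≤ G.K D i) {a a' : ℕ} (haa : a < a') (ha' : a' < 2) :
    G.K D a + G.K D a' < (1 - G.T 3) * min (1 - G.T 5) (2 * (1 - G.T 7)) := by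
  have p2 := G.two_even (q := 2) (by norm_num) hK haa ha'
  have hBA := G.bA_even (q := 2) (by norm_num)
  norm_num at p2 hBA
  have hAS : G.T 3 ≤ G.T 5 := G.T_mono (by omega)
  have hAT : G.T 3 ≤ G.T 7 := G.T_mono (by omega)
  have hT1 : G.T 7 < 1 := G.T_lt_one (by omega)
  have hA0 := G.T_nonneg 3
  have hac : (a : ℝ) + 1 ≤ a' := by exact_mod_cast haa
  have hac' : (a' : ℝ) + 1 ≤ 2 := by exact_mod_cast ha'
  have p1 : (7 : ℝ) * (G.K D a + G.K D a') ≤ 2 * ∑ i ∈ range 7, G.K D i := by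
    apply G.pair_bound hK haa.le (by omega)
    · push_cast; linarith
    · push_cast; linarith
  have s1 := G.sumK_le_two D (U := 3) (p := 4) (by omega) (by omega)
  norm_num at s1
  apply lt_mul_min
  · have g2 : G.K D a + G.K D a' < (1 - G.T 3) * (1 - G.T 3 - (G.T 5 - G.T 3)) := by
      apply e2_two (D := D) hA0 (by linarith) (by linarith) hD
      linarith
    have eB : 1 - G.T 3 - (G.T 5 - G.T 3) = 1 - G.T 5 := by ring
    rwa [eB] at g2
  · apply e1_two (D := D) hA0 hAT hT1 hD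
    linarith

theorem key_three {D : ℝ} (hD : D ≤ 31 / 121)
    (hn : 12 ≤ G.n) (hK : ∀ i, 0 ≤ G.K D i) {a a' : ℕ} (haa : a < a') (ha' : a' < 3) :
    G.K D a + G.K D a' < (1 - G.T 5) * min (1 - G.T 8) (2 * (1 - G.T 11)) := by
  have p2 := G.two_even (q := 3) (by norm_num) hK haa ha'
  have p1 := G.one_even (q := 3) (by norm_num) hK haa ha'
  have hBA := G.bA_even (q := 3) (by norm_num)
  have hquad := G.quad_even (q := 3) (D := D) (by norm_num) (by norm_num; linarith) hK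
  norm_num at p2 p1 hBA hquad
  have hAS : G.T 5 ≤ G.T 8 := G.T_mono (by omega)
  have hT1 : G.T 11 < 1 := G.T_lt_one (by omega)
  have hT0 := G.T_nonneg 11
  have hA0 := G.T_nonneg 5
  have hA35 : G.T 5 < 3 / 5 := by
    apply a_three hD
    linarith
  apply lt_mul_min
  · have g2 : G.K D a + G.K D a' < (1 - G.T 5) * (1 - G.T 5 - (G.T 8 - G.T 5)) := by
      apply e2_three (D := D) hA0 (by linarith) (by linarith) hD
      linarith
    have eB : 1 - G.T 5 - (G.T 8 - G.T 5) = 1 - G.T 8 := by ring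
    rwa [eB] at g2
  · apply e1_gen (N := 10) (m := 11) (D := D) (by norm_num) hT1 hT0 (by norm_num)
      (by linarith) (by norm_num; linarith)
    linarith

theorem key_four {q : ℕ} (hq : 4 ≤ q) {D : ℝ}
    (hD : D ≤ 3 / (4 * (q : ℝ) - 1) - 2 / (4 * (q : ℝ) - 1) ^ 2)
    (hn : 4 * q ≤ G.n) (hK : ∀ i, 0 ≤ G.K D i)
    {a a' : ℕ} (haa : a < a') (ha' : a' < q) :
    G.K D a + G.K D a' <
      (1 - G.T (2 * q - 1)) * min (1 - G.T (3 * q - 1)) (2 * (1 - G.T (4 * q - 1))) := by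
  have hqr : (4 : ℝ) ≤ q := by exact_mod_cast hq
  have p2 := G.two_even (by omega) hK haa ha'
  have p1 := G.one_even (by omega) hK haa ha'
  have hBA := G.bA_even (q := q) (by omega)
  have hquad := G.quad_even (by omega) hD hK
  have hAS : G.T (2 * q - 1) ≤ G.T (3 * q - 1) := G.T_mono (by omega)
  have hS1 : G.T (3 * q - 1) < 1 := G.T_lt_one (by omega)
  have hT1 : G.T (4 * q - 1) < 1 := G.T_lt_one (by omega)
  have hT0 := G.T_nonneg (4 * q - 1)
  have hA0 := G.T_nonneg (2 * q - 1)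
  have hA9 := a_even hqr hD hquad
  apply lt_mul_min
  · have g2 : G.K D a + G.K D a' < (1 - G.T (2 * q - 1)) *
        (1 - G.T (2 * q - 1) - (G.T (3 * q - 1) - G.T (2 * q - 1))) := by
      apply e2_even (D := D) hqr hA0 (by linarith) hBA (by linarith) hD p2
    have eB : 1 - G.T (2 * q - 1) - (G.T (3 * q - 1) - G.T (2 * q - 1)) = 1 - G.T (3 * q - 1) := by
      ring
    rwa [eB] at g2
  · apply e1_gen (N := 3 * (q : ℝ) + 1) (m := 4 * (q : ℝ) - 1) (D := D) (by linarith) hT1 hT0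
      (by linarith) (by nlinarith) hD p1

theorem key_even {q : ℕ} (hq : 2 ≤ q) {D : ℝ}
    (hD : D ≤ 3 / (4 * (q : ℝ) - 1) - 2 / (4 * (q : ℝ) - 1) ^ 2)
    (hn : 4 * q ≤ G.n) (hM : ∀ a, a < G.n → G.M a ≤ G.K D a)
    {a a' : ℕ} (haa : a < a') (ha' : a' < q) :
    G.K D a + G.K D a' <
      (1 - G.T (2 * q - 1)) * min (1 - G.T (3 * q - 1)) (2 * (1 - G.T (4 * q - 1))) := by
  have hK : ∀ i, 0 ≤ G.K D i := G.K_nonneg (by omega) hM
  rcases Nat.lt_or_ge q 4 with hq4 | hq4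
  · have hcase : q = 2 ∨ q = 3 := by omega
    rcases hcase with rfl | rfl
    · norm_num at hD
      exact G.key_two hD hn hK haa ha'
    · norm_num at hD
      exact G.key_three hD hn hK haa ha'
  · exact G.key_four hq4 hD hn hK haa ha'

theorem even_main {q : ℕ} (hq : 2 ≤ q) {D : ℝ}
    (hD : D ≤ 3 / (4 * (q : ℝ) - 1) - 2 / (4 * (q : ℝ) - 1) ^ 2)
    (hn : 4 * q ≤ G.n) (hM : ∀ a, a < G.n → G.M a ≤ G.K D a) :
    G.HasCycle (2 * q) := by
  apply G.cycle_even q q (3 * q - 1) (4 * q - 1) (by omega) (by omega)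
    (fun i => if i < q then i else 0) (range q) (by simp)
  · intro i _
    by_cases h : i < q
    · simp [h]
    · simp [h]; omega
  · intro i j hi hj h
    simpa [hi, hj] using h
  · simp
  · intro i hi
    by_contra hc
    push Not at hc
    have ha : (if i < q then i else 0) = i := by simp [hi]
    rw [ha] at hc
    set a' := (if i + 1 < q then i + 1 else 0) with ha'
    have ha'q : a' < q := by rw [ha']; split_ifs <;> omega
    have hne : i ≠ a' := by rw [ha']; split_ifs <;> omega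
    have h1 := G.pos_lemma (a := i) (a' := a') (range q) (by simpa using hi) (by simpa using ha'q)
      q (2 * q - 1) (3 * q - 1) (4 * q - 1) (by rw [card_range]; omega) hc ∅ (by simp) (by simp)
      (by simp)
    rw [sum_empty, zero_add] at h1
    have h2 := hM i (by omega)
    have h3 := hM a' (by omega)
    rcases lt_or_gt_of_ne hne with h | h
    · have := G.key_even hq hD hn hM h ha'q
      linarith
    · have := G.key_even hq hD hn hM h hi
      linarith

end Cfg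

end Pool.Agent.TH486.LC
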