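import Pool.Agent.TH486.LC.Num
import Pool.Agent.TH486.LC.Ineq

/-!
Linear cycles of length five.
-/

set_option autoImplicit false

open Finset

namespace Pool.Agent.TH486.LC

namespace Cfg

variable (G : Cfg)

theorem T3_eq : G.T 3 = G.y 0 + G.y 1 + G.y 2 := by
  unfold T; simp [Finset.sum_range_succ]

theorem T5_eq : G.T 5 = G.y 0 + G.y 1 + G.y 2 + G.y 3 + G.y 4 := by
  unfold T; simp [Finset.sum_range_succ]

theorem T7_eq : G.T 7 = G.y 0 + G.y 1 + G.y 2 + G.y 3 + G.y 4 + G.y 5 + G.y 6 := by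
  unfold T; simp [Finset.sum_range_succ]

theorem T9_eq : G.T 9 = G.y 0 + G.y 1 + G.y 2 + G.y 3 + G.y 4 + G.y 5 + G.y 6 + G.y 7 + G.y 8 := by
  unfold T; simp [Finset.sum_range_succ]

theorem Q9_eq : G.Q 9 = G.y 0 ^ 2 + G.y 1 ^ 2 + G.y 2 ^ 2 + G.y 3 ^ 2 + G.y 4 ^ 2 + G.y 5 ^ 2
    + G.y 6 ^ 2 + G.y 7 ^ 2 + G.y 8 ^ 2 := by
  unfold Q; simp [Finset.sum_range_succ]

/-- comparison with the full block -/
theorem five_full {D : ℝ} (hD : D ≤ 25 / 81) (hn : 10 ≤ G.n) (hK : ∀ i, 0 ≤ G.K D i)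
    {a' : ℕ} (ha' : a' ≤ 3) :
    G.K D 0 + G.K D a' < (1 - G.T 5) * (2 * (1 - G.T 9)) := by
  have hac' : (a' : ℝ) ≤ 3 := by exact_mod_cast ha'
  have p1 : (9 : ℝ) * (G.K D 0 + G.K D a') ≤ 2 * ∑ i ∈ range 9, G.K D i := by
    apply G.pair_bound hK (Nat.zero_le _) (by omega)
    · push_cast; linarith
    · push_cast; linarith
  have s1 := G.sumK_le_two D (U := 5) (p := 4) (by omega) (by omega)
  norm_num at s1
  have hAT : G.T 5 ≤ G.T 9 := G.T_mono (by omega)
  have hT1 : G.T 9 < 1 := G.T_lt_one (by omega)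
  apply e1_five (D := D) (G.T_nonneg 5) hAT hT1 hD
  linarith

theorem five_one {D : ℝ} (hD : D ≤ 25 / 81) (hn : 10 ≤ G.n) (hK : ∀ i, 0 ≤ G.K D i)
    {a' : ℕ} (ha' : a' ≤ 2) :
    G.K D 0 + G.K D a' < (1 - G.T 5) * min (1 - G.T 7) (2 * (1 - G.T 9)) := by
  apply lt_mul_min _ (G.five_full hD hn hK (by omega))
  have hac' : (a' : ℝ) ≤ 2 := by exact_mod_cast ha'
  have p1 : (5 : ℝ) * (G.K D 0 + G.K D a') ≤ 2 * ∑ i ∈ range 5, G.K D i := by
    apply G.pair_bound hK (Nat.zero_le _) (by omega)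
    · push_cast; linarith
    · push_cast; linarith
  have s1 := G.sumK_le D (U := 5) (p := 2) (by omega) (by omega)
  have hBA := G.diff_le 5 2
  norm_num at s1 hBA
  have hAS : G.T 5 ≤ G.T 7 := G.T_mono (by omega)
  have g2 : G.K D 0 + G.K D a' < (1 - G.T 5) * (1 - G.T 5 - (G.T 7 - G.T 5)) := by
    apply e2_five (D := D) (G.T_nonneg 5) (by linarith) (by linarith) hD
    linarith
  have eB : 1 - G.T 5 - (G.T 7 - G.T 5) = 1 - G.T 7 := by ring
  rwa [eB] at g2

theorem five_two {D : ℝ} (hD : D ≤ 25 / 81) (hn : 10 ≤ G.n) (hK : ∀ i, 0 ≤ G.K D i) :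
    G.K D 0 + G.K D 3 < (1 - G.T 5) * min (1 - G.T 7) (2 * (1 - G.T 9)) := by
  apply lt_mul_min _ (G.five_full hD hn hK (by omega))
  have a01 := G.anti (show 0 ≤ 1 by omega)
  have a12 := G.anti (show 1 ≤ 2 by omega)
  have a34 := G.anti (show 3 ≤ 4 by omega)
  have a45 := G.anti (show 4 ≤ 5 by omega)
  have a36 := G.anti (show 3 ≤ 6 by omega)
  have e3 := G.T3_eq
  have e5 := G.T5_eq
  have e7 := G.T7_eq
  have h3 := G.T_le_one 3
  have h5 := G.T_le_one 5
  have n0 := G.nonneg 0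
  have n1 := G.nonneg 1
  have n2 := G.nonneg 2
  have n3 := G.nonneg 3
  have n4 := G.nonneg 4
  have q9 := G.Q_le 9
  rw [G.Q9_eq] at q9
  have a23 := G.anti (show 2 ≤ 3 by omega)
  have hy0 : G.y 0 ≤ 1 / 2 := by
    have hK0 := hK 0
    unfold K at hK0
    have h10 : G.y 0 ^ 2 ≤ G.s2 := by
      have := G.Q_le 1
      unfold Q at this
      simpa using this
    have h11 : G.y 0 ≤ 1 := by linarith
    by_contra hc
    push Not at hc
    nlinarith
  have key := i2_e2 (y0 := G.y 0) (y3 := G.y 3) (P := G.T 3) (Q := G.y 3 + G.y 4)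
    (B := G.y 5 + G.y 6) (s := G.s2) (D := D) (z := G.K D 0 + G.K D 3)
    (by linarith) (by linarith) (by linarith) (by linarith)
    (by linarith)
    (by
      rw [e3]
      nlinarith [sq_nonneg (G.y 0 - G.y 1), sq_nonneg (G.y 1 - G.y 2), sq_nonneg (G.y 0 - G.y 2),
        sq_nonneg (G.y 3 - G.y 4), sq_nonneg (G.y 5 - G.y 6), sq_nonneg (G.y 7),
        sq_nonneg (G.y 8)])
    hD (by unfold K; linarith)
  have e : (1 - (G.T 3 + (G.y 3 + G.y 4))) * (1 - (G.T 3 + (G.y 3 + G.y 4)) - (G.y 5 + G.y 6))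
      = (1 - G.T 5) * (1 - G.T 7) := by
    rw [e3, e5, e7]; ring
  rwa [e] at key

theorem five_three {D : ℝ} (hD : D ≤ 25 / 81) (hK : ∀ i, 0 ≤ G.K D i) :
    G.K D 1 + G.K D 3 - G.y 2 * (1 - G.y 0 - G.y 1 - G.y 2)
      < (1 - G.T 5) * min (1 - G.T 7) (2 * (1 - G.T 9)) := by
  have a01 := G.anti (show 0 ≤ 1 by omega)
  have a12 := G.anti (show 1 ≤ 2 by omega)
  have a23 := G.anti (show 2 ≤ 3 by omega)
  have a34 := G.anti (show 3 ≤ 4 by omega)
  have a35 := G.anti (show 3 ≤ 5 by omega)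
  have a45 := G.anti (show 4 ≤ 5 by omega)
  have a46 := G.anti (show 4 ≤ 6 by omega)
  have a47 := G.anti (show 4 ≤ 7 by omega)
  have a48 := G.anti (show 4 ≤ 8 by omega)
  have e5 := G.T5_eq
  have e7 := G.T7_eq
  have e9 := G.T9_eq
  have h5 := G.T_le_one 5
  have n0 := G.nonneg 0
  have n1 := G.nonneg 1
  have n2 := G.nonneg 2
  have n3 := G.nonneg 3
  have n4 := G.nonneg 4
  have q9 := G.Q_le 9
  rw [G.Q9_eq] at q9
  have hK0 := hK 0
  unfold K at hK0
  apply lt_mul_min
  · obtain ⟨k1, k2⟩ := i3_common (h := G.y 0) (b := G.y 1) (c := G.y 2) (d := G.y 3) (e := G.y 4)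
      (s := G.s2) (D := D) (X := (G.y 5 + G.y 6) ^ 2 / 2)
      (z := G.K D 1 + G.K D 3 - G.y 2 * (1 - G.y 0 - G.y 1 - G.y 2))
      a12 a34 n0 (by linarith) (by linarith)
      (by nlinarith [sq_nonneg (G.y 5 - G.y 6), sq_nonneg (G.y 7), sq_nonneg (G.y 8)])
      hD hK0 (by unfold K; linarith)
    have k3 := i3_poly (h := G.y 0) (p := G.y 1 + G.y 2) (r := G.y 3 + G.y 4)
      (B := G.y 5 + G.y 6) (by linarith) (by linarith) (by linarith)
    have e : (1 - G.y 0 - (G.y 1 + G.y 2) - (G.y 3 + G.y 4))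
        * (1 - G.y 0 - (G.y 1 + G.y 2) - (G.y 3 + G.y 4) - (G.y 5 + G.y 6))
        = (1 - G.T 5) * (1 - G.T 7) := by
      rw [e5, e7]; ring
    rw [e] at k3
    linarith
  · obtain ⟨k1, k2⟩ := i3_common (h := G.y 0) (b := G.y 1) (c := G.y 2) (d := G.y 3) (e := G.y 4)
      (s := G.s2) (D := D) (X := (G.y 5 + G.y 6 + G.y 7 + G.y 8) ^ 2 / 4)
      (z := G.K D 1 + G.K D 3 - G.y 2 * (1 - G.y 0 - G.y 1 - G.y 2))
      a12 a34 n0 (by linarith) (by linarith)
      (by nlinarith [sq_nonneg (G.y 5 - G.y 6), sq_nonneg (G.y 7 - G.y 8),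
        sq_nonneg (G.y 5 + G.y 6 - G.y 7 - G.y 8)])
      hD hK0 (by unfold K; linarith)
    have k3 := i3_poly' (h := G.y 0) (p := G.y 1 + G.y 2) (r := G.y 3 + G.y 4)
      (C := G.y 5 + G.y 6 + G.y 7 + G.y 8) (by linarith) (by linarith) (by linarith)
    have e : 2 * ((1 - G.y 0 - (G.y 1 + G.y 2) - (G.y 3 + G.y 4))
        * (1 - G.y 0 - (G.y 1 + G.y 2) - (G.y 3 + G.y 4) - (G.y 5 + G.y 6 + G.y 7 + G.y 8)))
        = (1 - G.T 5) * (2 * (1 - G.T 9)) := by
      rw [e5, e9]; ring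
    rw [e] at k3
    linarith

/-- core vertices, first case -/
def sA (i : ℕ) : ℕ := if i = 0 then 1 else if i = 1 then 0 else 2

/-- core vertices, second case -/
def sB (i : ℕ) : ℕ := if i = 0 then 1 else if i = 1 then 3 else 0

theorem five_main {D : ℝ} (hD : D ≤ 25 / 81) (hn : 10 ≤ G.n)
    (hM : ∀ a, a < G.n → G.M a ≤ G.K D a) : G.HasCycle 5 := by
  have hK : ∀ i, 0 ≤ G.K D i := G.K_nonneg (by omega) hM
  by_cases hz : ∃ z, G.E 1 2 z ∧ z ≠ 0
  · obtain ⟨z, hz, hz0⟩ := hz
    have hz1 : 1 ≠ z := G.ne _ _ _ (G.symm2 _ _ _ hz)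
    have hz2 : 2 ≠ z := G.ne _ _ _ (G.symm2 _ _ _ (G.symm1 _ _ _ hz))
    have hB : ({z, 0, 1, 2} : Finset ℕ).card ≤ 4 := card_le_four
    have h5 := G.cycle_odd 2 4 7 9 (by omega) (by omega) sA {z, 0, 1, 2} hB
      (by intro i hi; unfold sA; split_ifs <;> simp)
      (by
        intro i j hi hj h
        unfold sA at h
        split_ifs at h <;> omega)
      z (by simp)
      (by intro i hi; unfold sA; split_ifs <;> omega)
      (by
        have : G.E 2 z 1 := G.symm2 _ _ _ (G.symm1 _ _ _ hz)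
        simpa [sA] using this)
      (by
        intro i hi
        by_contra hc
        push Not at hc
        have h1 := G.pos_lemma (a := sA i) (a' := sA (i + 1)) {z, 0, 1, 2}
          (by unfold sA; split_ifs <;> simp) (by unfold sA; split_ifs <;> simp)
          2 5 7 9 (by omega) hc ∅ (by simp) (by simp) (by simp)
        rw [sum_empty, zero_add] at h1
        have hi2 : i = 0 ∨ i = 1 := by omega
        rcases hi2 with rfl | rfl
        · have e1 : sA 0 = 1 := rfl
          have e2 : sA (0 + 1) = 0 := rfl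
          rw [e1, e2] at h1
          have := G.five_one hD hn hK (a' := 1) (by omega)
          have h2 := hM 0 (by omega)
          have h3 := hM 1 (by omega)
          linarith
        · have e1 : sA 1 = 0 := rfl
          have e2 : sA (1 + 1) = 2 := rfl
          rw [e1, e2] at h1
          have := G.five_one hD hn hK (a' := 2) (by omega)
          have h2 := hM 0 (by omega)
          have h3 := hM 2 (by omega)
          linarith)
    exact h5
  · push Not at hz
    obtain ⟨z, hz1⟩ := G.cover 1 2 (by omega) (by omega) (by omega)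
    have hz0 := hz z hz1
    rw [hz0] at hz1
    have hN : G.N 1 2 = {0} := by
      ext c
      rw [G.mem_N, mem_singleton]
      exact ⟨fun h => hz c h, fun h => h ▸ hz1⟩
    have hw : G.w 1 2 = 1 - G.y 0 - G.y 1 - G.y 2 := by
      unfold w; rw [hN, sum_singleton]; ring
    have hB : ({2, 0, 1, 3} : Finset ℕ).card ≤ 4 := card_le_four
    have h5 := G.cycle_odd 2 4 7 9 (by omega) (by omega) sB {2, 0, 1, 3} hB
      (by intro i hi; unfold sB; split_ifs <;> simp)
      (by
        intro i j hi hj h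
        unfold sB at h
        split_ifs at h <;> omega)
      2 (by simp)
      (by intro i hi; unfold sB; split_ifs <;> omega)
      (by
        have : G.E 0 2 1 := by
          have h1 : G.E 2 1 0 := G.symm1 _ _ _ hz1
          have h2 : G.E 2 0 1 := G.symm2 _ _ _ h1
          exact G.symm1 _ _ _ h2
        simpa [sB] using this)
      (by
        intro i hi
        by_contra hc
        push Not at hc
        have hi2 : i = 0 ∨ i = 1 := by omega
        rcases hi2 with rfl | rfl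
        · have e1 : sB 0 = 1 := rfl
          have e2 : sB (0 + 1) = 3 := rfl
          rw [e1, e2] at hc
          have h1 := G.pos_lemma (a := 1) (a' := 3) {2, 0, 1, 3}
            (by simp) (by simp) 2 5 7 9 (by omega) hc {2} (by simp)
            (by simp; omega) (by simp)
          rw [sum_singleton, hw] at h1
          have := G.five_three hD hK
          have h2 := hM 1 (by omega)
          have h3 := hM 3 (by omega)
          linarith
        · have e1 : sB 1 = 3 := rfl
          have e2 : sB (1 + 1) = 0 := rfl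
          rw [e1, e2] at hc
          have h1 := G.pos_lemma (a := 3) (a' := 0) {2, 0, 1, 3}
            (by simp) (by simp) 2 5 7 9 (by omega) hc ∅ (by simp) (by simp) (by simp)
          rw [sum_empty, zero_add] at h1
          have := G.five_two hD hn hK
          have h2 := hM 0 (by omega)
          have h3 := hM 3 (by omega)
          linarith)
    exact h5

end Cfg

end Pool.Agent.TH486.LC
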