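import Pool.Agent.TH486.LC.Tri
import Pool.Agent.TH486.LC.Defs

/-!
The trilinear form is six times the Lagrange polynomial.
-/

set_option autoImplicit false
set_option linter.unusedSectionVars false

open Finset

namespace Pool.Agent.TH486.LC

variable {V : Type} [Fintype V] [DecidableEq V]

theorem ind_sum (G : Finset (Finset V)) (i j k : V) :
    ind G i j k = ∑ e ∈ G, ind {e} i j k := by
  unfold ind
  simp only [mem_singleton]
  rw [Finset.sum_ite_eq]

theorem tri_sum (G : Finset (Finset V)) (x y z : V → ℝ) :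
    tri G x y z = ∑ e ∈ G, tri {e} x y z := by
  unfold tri
  symm
  rw [Finset.sum_comm]
  apply Finset.sum_congr rfl; intro i _
  rw [Finset.sum_comm]
  apply Finset.sum_congr rfl; intro j _
  rw [Finset.sum_comm]
  apply Finset.sum_congr rfl; intro k _
  rw [ind_sum, Finset.sum_mul]

theorem tri_single (e : Finset V) (he : e.card = 3) (x : V → ℝ) :
    tri {e} x x x = 6 * ∏ i ∈ e, x i := by
  obtain ⟨a, b, c, hab, hac, hbc, rfl⟩ := Finset.card_eq_three.1 he
  have hG : ∀ f ∈ ({({a, b, c} : Finset V)} : Finset (Finset V)), f.card = 3 := by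
    intro f hf
    rw [mem_singleton] at hf
    rw [hf, he]
  set G : Finset (Finset V) := {({a, b, c} : Finset V)} with hGd
  have z1 : ∀ i k, ind G i i k = 0 := fun i k => ind_self G hG i k
  have z2 : ∀ i k, ind G i k i = 0 := fun i k => by rw [ind_swap23, z1]
  have z3 : ∀ i k, ind G k i i = 0 := fun i k => by rw [ind_swap12, z2]
  have o1 : ind G a b c = 1 := by unfold ind; simp [hGd]
  have o2 : ind G a c b = 1 := by rw [ind_swap23, o1]
  have o3 : ind G b a c = 1 := by rw [ind_swap12, o1]
  have o4 : ind G b c a = 1 := by rw [ind_swap23, o3]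
  have o5 : ind G c a b = 1 := by rw [ind_swap12, o2]
  have o6 : ind G c b a = 1 := by rw [ind_swap23, o5]
  have hout : ∀ i j k, i ∉ ({a, b, c} : Finset V) → ind G i j k = 0 := by
    intro i j k hi
    unfold ind
    rw [if_neg]
    intro h
    rw [hGd, mem_singleton] at h
    apply hi
    rw [← h]; simp
  have hout2 : ∀ i j k, j ∉ ({a, b, c} : Finset V) → ind G i j k = 0 := by
    intro i j k hj
    rw [ind_swap12]; exact hout j i k hj
  have hout3 : ∀ i j k, k ∉ ({a, b, c} : Finset V) → ind G i j k = 0 := by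
    intro i j k hk
    rw [ind_swap23]; exact hout2 i k j hk
  unfold tri
  have s1 : ∀ i j, (∑ k, ind G i j k * (x i * x j * x k))
      = ∑ k ∈ ({a, b, c} : Finset V), ind G i j k * (x i * x j * x k) := by
    intro i j
    symm
    apply Finset.sum_subset (subset_univ _)
    intro k _ hk
    rw [hout3 i j k hk, zero_mul]
  have s2 : ∀ i, (∑ j, ∑ k, ind G i j k * (x i * x j * x k))
      = ∑ j ∈ ({a, b, c} : Finset V), ∑ k ∈ ({a, b, c} : Finset V),
          ind G i j k * (x i * x j * x k) := by
    intro i
    rw [Finset.sum_congr rfl (fun j _ => s1 i j)]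
    symm
    apply Finset.sum_subset (subset_univ _)
    intro j _ hj
    apply Finset.sum_eq_zero
    intro k _
    rw [hout2 i j k hj, zero_mul]
  have s3 : (∑ i, ∑ j, ∑ k, ind G i j k * (x i * x j * x k))
      = ∑ i ∈ ({a, b, c} : Finset V), ∑ j ∈ ({a, b, c} : Finset V), ∑ k ∈ ({a, b, c} : Finset V),
          ind G i j k * (x i * x j * x k) := by
    rw [Finset.sum_congr rfl (fun i _ => s2 i)]
    symm
    apply Finset.sum_subset (subset_univ _)
    intro i _ hi
    apply Finset.sum_eq_zero
    intro j _
    apply Finset.sum_eq_zero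
    intro k _
    rw [hout i j k hi, zero_mul]
  rw [s3]
  have e3 : ∀ f : V → ℝ, ∑ i ∈ ({a, b, c} : Finset V), f i = f a + f b + f c := by
    intro f
    rw [sum_insert (by simp [hab, hac]), sum_insert (by simp [hbc]), sum_singleton]; ring
  have p3 : ∏ i ∈ ({a, b, c} : Finset V), x i = x a * x b * x c := by
    rw [prod_insert (by simp [hab, hac]), prod_insert (by simp [hbc]), prod_singleton]; ring
  simp only [e3, z1, z2, z3, o1, o2, o3, o4, o5, o6, p3]
  ring

theorem tri_eq (G : Finset (Finset V)) (hG : IsThreeGraph G) (x : V → ℝ) :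
    tri G x x x = 6 * ∑ e ∈ G, ∏ i ∈ e, x i := by
  rw [tri_sum, Finset.mul_sum]
  apply Finset.sum_congr rfl
  intro e he
  exact tri_single e (hG e he) x

end Pool.Agent.TH486.LC
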