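import Pool.Agent.TH486.LC.Num
import Pool.Agent.TH486.LC.Ineq

/-!
Linear cycles of odd length at least seven.
-/

set_option autoImplicit false

open Finset

namespace Pool.Agent.TH486.LC

namespace Cfg

variable (G : Cfg)

theorem two_odd {q : ℕ} (hq : 3 ≤ q) {D : ℝ} (hK : ∀ i, 0 ≤ G.K D i)
    {a a' : ℕ} (haa : a < a') (ha : a < q) (ha' : a' ≤ q + 1) :
    ((q : ℝ) + 2) * (G.K D a + G.K D a') ≤ 2 * ((2 * (q : ℝ) + 1) * D - 2 * G.T (2 * q + 1)
      - (2 * (q : ℝ) + 1 - 2) * (G.T (2 * q + 1) ^ 2 / (2 * (q : ℝ) + 1))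
      - (2 * (q : ℝ) + 1) * ((G.T (3 * q + 1) - G.T (2 * q + 1)) ^ 2 / q)) := by
  have hUc : ((2 * q + 1 : ℕ) : ℝ) = 2 * (q : ℝ) + 1 := by push_cast; ring
  have hqr : (3 : ℝ) ≤ q := by exact_mod_cast hq
  have hac : (a : ℝ) + 1 ≤ q := by exact_mod_cast ha
  have hac' : (a' : ℝ) ≤ q + 1 := by exact_mod_cast ha'
  have eJ : 2 * q + 1 + q = 3 * q + 1 := by omega
  have p2 : ((q : ℝ) + 2) * (G.K D a + G.K D a') ≤ 2 * ∑ i ∈ range (2 * q + 1), G.K D i :=
    G.pair_bound hK haa.le (by omega) (by rw [hUc]; linarith) (by rw [hUc]; linarith)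
  have s2 := G.sumK_le D (U := 2 * q + 1) (p := q) (by omega) (by omega)
  rw [eJ, hUc] at s2
  linarith

theorem one_odd {q : ℕ} (hq : 3 ≤ q) {D : ℝ} (hK : ∀ i, 0 ≤ G.K D i)
    {a a' : ℕ} (haa : a < a') (ha : a < q) (ha' : a' ≤ q + 1) :
    (3 * (q : ℝ) + 2) * (G.K D a + G.K D a') ≤ 2 * ((4 * (q : ℝ) + 1) * D - 2 * G.T (4 * q + 1)
      - (4 * (q : ℝ) + 1 - 2) * (G.T (4 * q + 1) ^ 2 / (4 * (q : ℝ) + 1))) := by
  have hmc : ((4 * q + 1 : ℕ) : ℝ) = 4 * (q : ℝ) + 1 := by push_cast; ring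
  have hqr : (3 : ℝ) ≤ q := by exact_mod_cast hq
  have hac : (a : ℝ) + 1 ≤ q := by exact_mod_cast ha
  have hac' : (a' : ℝ) ≤ q + 1 := by exact_mod_cast ha'
  have p1 : (3 * (q : ℝ) + 2) * (G.K D a + G.K D a') ≤ 2 * ∑ i ∈ range (4 * q + 1), G.K D i :=
    G.pair_bound hK haa.le (by omega) (by rw [hmc]; linarith) (by rw [hmc]; linarith)
  have s1 := G.sumK_le_one D (m := 4 * q + 1) (by omega)
  rw [hmc] at s1
  linarith

theorem bA_odd (q : ℕ) :
    (2 * (q : ℝ) + 1) * (G.T (3 * q + 1) - G.T (2 * q + 1)) ≤ q * G.T (2 * q + 1) := by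
  have hUc : ((2 * q + 1 : ℕ) : ℝ) = 2 * (q : ℝ) + 1 := by push_cast; ring
  have eJ : 2 * q + 1 + q = 3 * q + 1 := by omega
  have hBA := G.diff_le (2 * q + 1) q
  rwa [eJ, hUc] at hBA

theorem quad_odd {q : ℕ} (hq : 3 ≤ q) {D : ℝ}
    (hD : D ≤ 3 / (4 * (q : ℝ) + 1) - 2 / (4 * (q : ℝ) + 1) ^ 2) (hK : ∀ i, 0 ≤ G.K D i) :
    2 * G.T (2 * q + 1) + (2 * (q : ℝ) + 1 - 2) * (G.T (2 * q + 1) ^ 2 / (2 * (q : ℝ) + 1))
      ≤ (2 * (q : ℝ) + 1) * D := by
  have hUc : ((2 * q + 1 : ℕ) : ℝ) = 2 * (q : ℝ) + 1 := by push_cast; ring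
  have hqr : (3 : ℝ) ≤ q := by exact_mod_cast hq
  have hDlt : D < 3 / 4 := by
    refine hD.trans_lt ?_
    have h1 : 0 < 4 * (q : ℝ) + 1 := by linarith
    have h2 : 3 / (4 * (q : ℝ) + 1) ≤ 3 / 7 := by
      apply div_le_div_of_nonneg_left (by norm_num) (by norm_num) (by linarith)
    have h3 : 0 < 2 / (4 * (q : ℝ) + 1) ^ 2 := by positivity
    linarith
  have hquad := G.T_quad hDlt (hK 0) (U := 2 * q + 1) (by omega)
  rwa [hUc] at hquad

theorem key_odd {q : ℕ} (hq : 3 ≤ q) {D : ℝ}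
    (hD : D ≤ 3 / (4 * (q : ℝ) + 1) - 2 / (4 * (q : ℝ) + 1) ^ 2)
    (hn : 4 * q + 2 ≤ G.n) (hK : ∀ i, 0 ≤ G.K D i)
    {a a' : ℕ} (haa : a < a') (ha : a < q) (ha' : a' ≤ q + 1) :
    G.K D a + G.K D a' <
      (1 - G.T (2 * q + 1)) * min (1 - G.T (3 * q + 1)) (2 * (1 - G.T (4 * q + 1))) := by
  have hqr : (3 : ℝ) ≤ q := by exact_mod_cast hq
  have p2 := G.two_odd hq hK haa ha ha'
  have p1 := G.one_odd hq hK haa ha ha'
  have hBA := G.bA_odd q
  have hquad := G.quad_odd hq hD hK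
  have hAS : G.T (2 * q + 1) ≤ G.T (3 * q + 1) := G.T_mono (by omega)
  have hS1 : G.T (3 * q + 1) < 1 := G.T_lt_one (by omega)
  have hT1 : G.T (4 * q + 1) < 1 := G.T_lt_one (by omega)
  have hT0 := G.T_nonneg (4 * q + 1)
  have hA0 := G.T_nonneg (2 * q + 1)
  have hA9 := a_odd hqr hD hquad
  apply lt_mul_min
  · have g2 : G.K D a + G.K D a' < (1 - G.T (2 * q + 1)) *
        (1 - G.T (2 * q + 1) - (G.T (3 * q + 1) - G.T (2 * q + 1))) := by
      apply e2_odd (D := D) hqr hA0 (by linarith) hBA (by linarith) hD p2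
    have eB : 1 - G.T (2 * q + 1) - (G.T (3 * q + 1) - G.T (2 * q + 1)) = 1 - G.T (3 * q + 1) := by
      ring
    rwa [eB] at g2
  · apply e1_gen (N := 3 * (q : ℝ) + 2) (m := 4 * (q : ℝ) + 1) (D := D) (by linarith) hT1 hT0
      (by linarith) (by nlinarith) hD p1

/-- the sequence of chosen core vertices -/
def seqA (q z i : ℕ) : ℕ :=
  if i = 0 then q else if i < q then (if i - 1 < z then i - 1 else i) else q + 1

theorem odd_main {q : ℕ} (hq : 3 ≤ q) {D : ℝ}
    (hD : D ≤ 3 / (4 * (q : ℝ) + 1) - 2 / (4 * (q : ℝ) + 1) ^ 2)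
    (hn : 4 * q + 2 ≤ G.n) (hM : ∀ a, a < G.n → G.M a ≤ G.K D a) :
    G.HasCycle (2 * q + 1) := by
  have hK : ∀ i, 0 ≤ G.K D i := G.K_nonneg (by omega) hM
  obtain ⟨z, hz⟩ := G.cover q (q + 1) (by omega) (by omega) (by omega)
  have hz1 : q ≠ z := G.ne _ _ _ (G.symm2 _ _ _ hz)
  have hz2 : q + 1 ≠ z := G.ne _ _ _ (G.symm2 _ _ _ (G.symm1 _ _ _ hz))
  have hB : (insert z ((range (q + 1)).image (seqA q z))).card ≤ q + 2 := by
    calc (insert z ((range (q + 1)).image (seqA q z))).card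
        ≤ ((range (q + 1)).image (seqA q z)).card + 1 := card_insert_le _ _
      _ ≤ (range (q + 1)).card + 1 := Nat.add_le_add_right card_image_le 1
      _ = q + 2 := by rw [card_range]
  have haB : ∀ i, i ≤ q → seqA q z i ∈ insert z ((range (q + 1)).image (seqA q z)) := by
    intro i hi
    rw [mem_insert]
    right
    exact mem_image_of_mem _ (by simpa using Nat.lt_succ_of_le hi)
  apply G.cycle_odd q (q + 2) (3 * q + 1) (4 * q + 1) (by omega) (by omega)
    (seqA q z) (insert z ((range (q + 1)).image (seqA q z))) hB haB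
    _ z (mem_insert_self _ _)
  · intro i hi
    unfold seqA
    split_ifs <;> first | omega | (exfalso; assumption)
  · have e1 : seqA q z q = q + 1 := by
      unfold seqA; split_ifs <;> first | omega | (exfalso; assumption)
    have e2 : seqA q z 0 = q := by unfold seqA; simp
    rw [e1, e2]
    exact G.symm2 _ _ _ (G.symm1 _ _ _ hz)
  · intro i hi
    by_contra hc
    push Not at hc
    have h1 := G.pos_lemma (a := seqA q z i) (a' := seqA q z (i + 1))
      (insert z ((range (q + 1)).image (seqA q z))) (haB i hi.le) (haB (i + 1) (by omega))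
      q (2 * q + 1) (3 * q + 1) (4 * q + 1) (by omega) hc ∅ (by simp) (by simp) (by simp)
    rw [sum_empty, zero_add] at h1
    have hne : seqA q z i ≠ seqA q z (i + 1) := by
      unfold seqA; split_ifs <;> first | omega | (exfalso; assumption)
    have hlt : seqA q z i < G.n ∧ seqA q z (i + 1) < G.n := by
      unfold seqA; constructor <;> split_ifs <;> first | omega | (exfalso; assumption)
    have h2 := hM _ hlt.1
    have h3 := hM _ hlt.2
    rcases lt_or_gt_of_ne hne with h | h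
    · have := G.key_odd hq hD hn hK h (by unfold seqA at h ⊢; split_ifs at h ⊢ <;> first | omega | (exfalso; assumption))
        (by unfold seqA; split_ifs <;> first | omega | (exfalso; assumption))
      linarith
    · have := G.key_odd hq hD hn hK h (by unfold seqA at h ⊢; split_ifs at h ⊢ <;> first | omega | (exfalso; assumption))
        (by unfold seqA; split_ifs <;> first | omega | (exfalso; assumption))
      linarith
  · intro i j hi hj h
    unfold seqA at h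
    split_ifs at h <;> first | omega | (exfalso; assumption)

end Cfg

end Pool.Agent.TH486.LC
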