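import Pool.Agent.TH486.LC.Model
import Pool.Agent.TH486.LC.Even
import Pool.Agent.TH486.LC.Odd
import Pool.Agent.TH486.LC.Five

/-!
The main theorem on Lagrangians of 3-graphs without a linear cycle of given length.
-/

set_option autoImplicit false
set_option linter.unusedSectionVars false

open Finset

namespace Pool.Agent.TH486.LC

theorem cfg_cycle (C : Cfg) {t : ℕ} (ht : 4 ≤ t) {D : ℝ}
    (hD : D ≤ 3 / (2 * (t : ℝ) - 1) - 2 / (2 * (t : ℝ) - 1) ^ 2)
    (hn : 2 * t ≤ C.n) (hM : ∀ a, a < C.n → C.M a ≤ C.K D a) : C.HasCycle t := by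
  rcases Nat.even_or_odd' t with ⟨q, rfl | rfl⟩
  · have e : 2 * ((2 * q : ℕ) : ℝ) - 1 = 4 * (q : ℝ) - 1 := by push_cast; ring
    rw [e] at hD
    exact C.even_main (by omega) hD (by omega) hM
  · have e : 2 * ((2 * q + 1 : ℕ) : ℝ) - 1 = 4 * (q : ℝ) + 1 := by push_cast; ring
    rw [e] at hD
    rcases Nat.lt_or_ge q 3 with h | h
    · have hq : q = 2 := by omega
      subst hq
      norm_num at hD
      exact C.five_main hD (by omega) hM
    · exact C.odd_main h hD (by omega) hM

theorem small_case (C : Cfg) {m : ℕ} (hm : 7 ≤ m) {D : ℝ}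
    (hD : D ≤ 3 / (m : ℝ) - 2 / (m : ℝ) ^ 2) (hn0 : 0 < C.n) (hn : C.n ≤ m)
    (hM : ∀ a, a < C.n → C.M a = C.K D a) :
    D = 3 / (m : ℝ) - 2 / (m : ℝ) ^ 2 ∧ C.n = m ∧
      ∀ a b c, a < m → b < m → c < m → a ≠ b → a ≠ c → b ≠ c → C.E a b c := by
  have hmr : (7 : ℝ) ≤ m := by exact_mod_cast hm
  have hnr : (0 : ℝ) < C.n := by exact_mod_cast hn0
  have hnm : (C.n : ℝ) ≤ m := by exact_mod_cast hn
  set μ : ℝ := 1 / m with hμ
  have hμ0 : 0 < μ := by positivity
  have hμm : μ * m = 1 := by rw [hμ]; field_simp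
  have hμ7 : μ ≤ 1 / 7 := by
    rw [hμ]; exact one_div_le_one_div_of_le (by norm_num) hmr
  have hDμ : 3 / (m : ℝ) - 2 / (m : ℝ) ^ 2 = 3 * μ - 2 * μ ^ 2 := by
    rw [hμ]; field_simp
  rw [hDμ] at hD ⊢
  have hs : μ ≤ C.s2 := by
    have h1 := C.cauchy C.n
    have h2 := C.Q_le C.n
    rw [C.T_n] at h1
    have h3 : 1 ≤ (m : ℝ) * C.s2 := by nlinarith [C.Q_le 0, show C.Q 0 = 0 by simp [Cfg.Q]]
    nlinarith
  have hy0 : μ ≤ C.y 0 := by
    have h1 := C.T_le_mul C.n
    rw [C.T_n] at h1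
    have h3 : 1 ≤ (m : ℝ) * C.y 0 := by nlinarith [C.nonneg 0]
    nlinarith
  have hK0 : C.s2 + 2 * (C.y 0 * (1 - C.y 0)) ≤ D := by
    have h1 := hM 0 hn0
    have h2 := C.M_nonneg 0
    rw [h1] at h2
    unfold Cfg.K at h2
    linarith
  have hsy : C.y 0 ^ 2 ≤ C.s2 := by
    have := C.Q_le 1
    unfold Cfg.Q at this
    simpa using this
  have hy1 : C.y 0 ≤ 1 := by
    have := C.T_le_one 1
    unfold Cfg.T at this
    simpa using this
  have hy2 : C.y 0 ≤ 1 - μ := by
    by_contra hc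
    push Not at hc
    nlinarith
  have hy3 : μ * (1 - μ) ≤ C.y 0 * (1 - C.y 0) := by
    nlinarith [mul_nonneg (sub_nonneg.2 hy0) (sub_nonneg.2 hy2)]
  have hDeq : D = 3 * μ - 2 * μ ^ 2 := by nlinarith
  have hseq : C.s2 = μ := by nlinarith
  have hneq : C.n = m := by
    have h1 := C.cauchy C.n
    have h2 := C.Q_le C.n
    rw [C.T_n] at h1
    have h3 : 1 ≤ (C.n : ℝ) * μ := by nlinarith
    have h4 : (m : ℝ) ≤ C.n := by nlinarith
    have h5 : m ≤ C.n := by exact_mod_cast h4
    omega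
  have hyall : ∀ a, a < C.n → C.y a = μ := by
    have h0 : ∑ i ∈ range C.n, (C.y i - μ) ^ 2 = 0 := by
      have e : ∀ i ∈ range C.n, (C.y i - μ) ^ 2 = C.y i ^ 2 - 2 * μ * C.y i + μ ^ 2 := by
        intro i _; ring
      rw [Finset.sum_congr rfl e, Finset.sum_add_distrib, Finset.sum_sub_distrib,
        ← Finset.mul_sum, C.total, Finset.sum_const, card_range, nsmul_eq_mul]
      have h5 : ∑ i ∈ range C.n, C.y i ^ 2 = μ := hseq
      rw [h5, hneq]
      nlinarith
    intro a ha
    have h1 := (Finset.sum_eq_zero_iff_of_nonneg (fun i _ => sq_nonneg (C.y i - μ))).1 h0 a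
      (mem_range.2 ha)
    nlinarith
  refine ⟨hDeq, hneq, ?_⟩
  intro a b c ha hb hc hab hac hbc
  rw [← hneq] at ha hb hc
  have hMa : C.M a = 0 := by
    rw [hM a ha]
    unfold Cfg.K
    rw [hyall a ha, hseq, hDeq]; ring
  have hw : C.w a b = 0 := by
    unfold Cfg.M at hMa
    have h1 := (Finset.sum_eq_zero_iff_of_nonneg (fun i hi =>
      mul_nonneg (C.nonneg i) (C.w_nonneg (ne_of_mem_erase hi).symm))).1 hMa b
      (mem_erase.2 ⟨hab.symm, mem_range.2 hb⟩)
    have h2 := C.pos b hb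
    rcases mul_eq_zero.1 h1 with h | h
    · linarith
    · exact h
  by_contra hE
  have hcN : c ∉ C.N a b := fun h => hE (C.mem_N.1 h)
  -- the total weight would exceed one
  have h1 : ∑ i ∈ insert a (insert b (insert c (C.N a b))), C.y i ≤ 1 := by
    have := C.sum_le_T' (le_refl (insert a (insert b (insert c (C.N a b)))).card)
    exact this.trans (C.T_le_one _)
  rw [sum_insert, sum_insert, sum_insert hcN] at h1
  · have h2 := C.pos c hc
    unfold Cfg.w at hw
    linarith
  · rw [mem_insert]; push Not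
    exact ⟨hbc, C.right_notMem a b⟩
  · rw [mem_insert, mem_insert]; push Not
    exact ⟨hab, hac, C.left_notMem a b⟩

/-- a cycle in the configuration gives a cycle in the 3-graph -/
theorem contains_of_hasCycle {V : Type} [DecidableEq V] (G : Finset (Finset V)) (C : Cfg)
    (φ : ℕ → V) (hinj : ∀ i j, i < C.n → j < C.n → φ i = φ j → i = j)
    (hE : ∀ a b c, C.E a b c → ({φ a, φ b, φ c} : Finset V) ∈ G)
    {t : ℕ} (ht : 0 < t) (h : C.HasCycle t) : Contains (linCycle t) G := by
  obtain ⟨g, hg, hgE⟩ := h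
  have : NeZero (2 * t) := ⟨by omega⟩
  have hlt : ∀ k, k < 2 * t → g k < C.n := by
    intro k hk
    rcases Nat.even_or_odd' k with ⟨i, rfl | rfl⟩
    · have := hgE i (by omega)
      exact C.lt _ _ _ (C.symm2 _ _ _ (C.symm1 _ _ _ this))
    · have := hgE i (by omega)
      exact C.lt _ _ _ (C.symm2 _ _ _ this)
  refine ⟨fun z => φ (g z.val), ?_, ?_⟩
  · intro z w hzw
    have h1 := hinj _ _ (hlt _ (ZMod.val_lt z)) (hlt _ (ZMod.val_lt w)) hzw
    exact ZMod.val_injective _ (hg _ _ (ZMod.val_lt z) (ZMod.val_lt w) h1)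
  · intro e he
    unfold linCycle at he
    rw [mem_image] at he
    obtain ⟨i, hi, rfl⟩ := he
    rw [mem_range] at hi
    rw [image_insert, image_insert, image_singleton, ZMod.val_natCast, ZMod.val_natCast,
      ZMod.val_natCast, Nat.mod_eq_of_lt (show 2 * i < 2 * t by omega),
      Nat.mod_eq_of_lt (show 2 * i + 1 < 2 * t by omega)]
    exact hE _ _ _ (hgE i hi)

theorem contains_complete {V : Type} [DecidableEq V] (G : Finset (Finset V)) (φ : ℕ → V) (m : ℕ)
    (hinj : ∀ i j, i < m → j < m → φ i = φ j → i = j)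
    (hE : ∀ a b c, a < m → b < m → c < m → a ≠ b → a ≠ c → b ≠ c →
      ({φ a, φ b, φ c} : Finset V) ∈ G) : Contains (complete m) G := by
  refine ⟨fun i => φ i, ?_, ?_⟩
  · intro i j hij
    exact Fin.ext (hinj _ _ i.2 j.2 hij)
  · intro e he
    unfold complete at he
    rw [mem_powersetCard] at he
    obtain ⟨a, b, c, hab, hac, hbc, rfl⟩ := Finset.card_eq_three.1 he.2
    rw [image_insert, image_insert, image_singleton]
    exact hE a b c a.2 b.2 c.2 (fun h => hab (Fin.ext h)) (fun h => hac (Fin.ext h))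
      (fun h => hbc (Fin.ext h))

section

variable {V : Type} [Fintype V] [DecidableEq V]

/-- the main theorem in terms of the trilinear form -/
theorem main_core (G : Finset (Finset V)) (hG : IsThreeGraph G) {t : ℕ} (ht : 4 ≤ t)
    (hfree : ¬ Contains (linCycle t) G) {x : V → ℝ} (hx : x ∈ stdSimplex ℝ V)
    (hmax : ∀ y ∈ stdSimplex ℝ V, tri G y y y ≤ tri G x x x)
    (hmin : ∀ y ∈ stdSimplex ℝ V, (∀ z ∈ stdSimplex ℝ V, tri G z z z ≤ tri G y y y) →
        (supp x).card ≤ (supp y).card)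
    (hL : 1 - (3 / (2 * (t : ℝ) - 1) - 2 / (2 * (t : ℝ) - 1) ^ 2) ≤ tri G x x x) :
    tri G x x x = 1 - (3 / (2 * (t : ℝ) - 1) - 2 / (2 * (t : ℝ) - 1) ^ 2) ∧
      Contains (complete (2 * t - 1)) G := by
  obtain ⟨C, φ, hinj, hE, hM⟩ := exists_cfg G hG hx hmax hmin
  have hn0 : 0 < C.n := by
    by_contra hc
    have : C.n = 0 := by omega
    have h1 := C.total
    rw [this] at h1
    simp at h1
  have hD : 1 - tri G x x x ≤ 3 / (2 * (t : ℝ) - 1) - 2 / (2 * (t : ℝ) - 1) ^ 2 := by linarith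
  have hn : C.n ≤ 2 * t - 1 := by
    by_contra hc
    push Not at hc
    apply hfree
    apply contains_of_hasCycle G C φ hinj hE (by omega)
    exact cfg_cycle C ht hD (by omega) (fun a ha => (hM a ha).le)
  have hmc : ((2 * t - 1 : ℕ) : ℝ) = 2 * (t : ℝ) - 1 := by
    rw [Nat.cast_sub (by omega)]; push_cast; ring
  rw [← hmc] at hD ⊢
  obtain ⟨h1, h2, h3⟩ := small_case C (m := 2 * t - 1) (by omega) hD hn0 hn hM
  refine ⟨by linarith, ?_⟩
  apply contains_complete G φ
  · intro i j hi hj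
    exact hinj i j (by omega) (by omega)
  · intro a b c ha hb hc hab hac hbc
    exact hE _ _ _ (h3 a b c ha hb hc hab hac hbc)

theorem lagrangian_eq (G : Finset (Finset V)) (hG : IsThreeGraph G) {x : V → ℝ}
    (hx : x ∈ stdSimplex ℝ V)
    (hmax : ∀ y ∈ stdSimplex ℝ V, tri G y y y ≤ tri G x x x) :
    6 * lagrangian G = tri G x x x := by
  have h1 : IsGreatest ((fun x : V → ℝ => ∑ e ∈ G, ∏ i ∈ e, x i) '' stdSimplex ℝ V)
      (∑ e ∈ G, ∏ i ∈ e, x i) := by
    refine ⟨⟨x, hx, rfl⟩, ?_⟩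
    rintro _ ⟨y, hy, rfl⟩
    have := hmax y hy
    rw [tri_eq G hG, tri_eq G hG] at this
    simpa using this
  unfold lagrangian
  rw [h1.csSup_eq, tri_eq G hG]

/-- the value of the bound -/
noncomputable def bd (t : ℕ) : ℝ := 1 - (3 / (2 * (t : ℝ) - 1) - 2 / (2 * (t : ℝ) - 1) ^ 2)

theorem lagrangian_le (G : Finset (Finset V)) (hG : IsThreeGraph G) {t : ℕ} (ht : 4 ≤ t)
    (hfree : ¬ Contains (linCycle t) G) :
    6 * lagrangian G ≤ bd t ∧ (6 * lagrangian G = bd t → Contains (complete (2 * t - 1)) G) := by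
  rcases isEmpty_or_nonempty V with hV | hV
  · have h0 : lagrangian G = 0 := by
      unfold lagrangian
      have : stdSimplex ℝ V = ∅ := by
        rw [Set.eq_empty_iff_forall_notMem]
        intro x hx
        have := hx.2
        simp at this
      rw [this]; simp
    have hb : 0 < bd t := by
      have htr : (4 : ℝ) ≤ t := by exact_mod_cast ht
      unfold bd
      have h1 : 3 / (2 * (t : ℝ) - 1) ≤ 3 / 7 := by
        apply div_le_div_of_nonneg_left (by norm_num) (by norm_num) (by linarith)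
      have h2 : 0 ≤ 2 / (2 * (t : ℝ) - 1) ^ 2 := by positivity
      linarith
    rw [h0]
    exact ⟨by linarith, fun h => by linarith⟩
  · obtain ⟨x, hx, hmax, hmin⟩ := exists_max G
    rw [lagrangian_eq G hG hx hmax]
    by_cases hL : bd t ≤ tri G x x x
    · obtain ⟨h1, h2⟩ := main_core G hG ht hfree hx hmax hmin hL
      exact ⟨h1.le, fun _ => h2⟩
    · push Not at hL
      exact ⟨hL.le, fun h => absurd h hL.ne⟩

end

theorem isThreeGraph_complete (m : ℕ) : IsThreeGraph (complete m) := by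
  intro e he
  unfold complete at he
  exact (mem_powersetCard.1 he).2

theorem bd_le_complete {t : ℕ} (ht : 4 ≤ t) : bd t ≤ 6 * lagrangian (complete (2 * t - 1)) := by
  set m := 2 * t - 1 with hm
  have hm7 : 7 ≤ m := by omega
  have hmc : (m : ℝ) = 2 * (t : ℝ) - 1 := by
    rw [hm, Nat.cast_sub (by omega)]; push_cast; ring
  have hm0 : (0 : ℝ) < m := by exact_mod_cast (by omega : 0 < m)
  have : Nonempty (Fin m) := ⟨⟨0, by omega⟩⟩
  obtain ⟨x, hx, hmax, _⟩ := exists_max (complete m)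
  rw [lagrangian_eq _ (isThreeGraph_complete m) hx hmax]
  let u : Fin m → ℝ := fun _ => 1 / m
  have hu : u ∈ stdSimplex ℝ (Fin m) := by
    constructor
    · intro i; simp only [u]; positivity
    · simp only [u, Finset.sum_const, card_univ, Fintype.card_fin, nsmul_eq_mul]
      field_simp
  refine le_trans (le_of_eq ?_) (hmax u hu)
  rw [tri_eq _ (isThreeGraph_complete m)]
  have h1 : ∑ e ∈ complete m, ∏ i ∈ e, u i = (m.choose 3 : ℝ) * (1 / m) ^ 3 := by
    have : ∀ e ∈ complete m, ∏ i ∈ e, u i = (1 / (m : ℝ)) ^ 3 := by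
      intro e he
      simp only [u, Finset.prod_const]
      rw [isThreeGraph_complete m e he]
    rw [Finset.sum_congr rfl this, Finset.sum_const, nsmul_eq_mul]
    unfold complete
    rw [card_powersetCard, card_univ, Fintype.card_fin]
  have h2 : (6 : ℝ) * (m.choose 3 : ℝ) = m * (m - 1) * (m - 2) := by
    obtain ⟨k, hk⟩ : ∃ k, m = k + 3 := ⟨m - 3, by omega⟩
    have h3 : 6 * m.choose 3 = (k + 3) * (k + 2) * (k + 1) := by
      have := Nat.descFactorial_eq_factorial_mul_choose m 3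
      rw [hk] at this ⊢
      simp [Nat.descFactorial, Nat.factorial] at this
      rw [← this]; ring
    have h4 : ((6 * m.choose 3 : ℕ) : ℝ) = (((k + 3) * (k + 2) * (k + 1) : ℕ) : ℝ) := by
      rw [h3]
    push_cast at h4
    rw [h4, hk]; push_cast; ring
  rw [h1]
  unfold bd
  rw [← hmc]
  have h5 : 6 * ((m.choose 3 : ℝ) * (1 / m) ^ 3) = (6 * (m.choose 3 : ℝ)) * (1 / m) ^ 3 := by ring
  rw [h5, h2]
  field_simp
  ring

/-- `K_{2t-1}` has too few vertices to contain the linear cycle of length `t` -/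
theorem complete_free {t : ℕ} (ht : 4 ≤ t) : ¬ Contains (linCycle t) (complete (2 * t - 1)) := by
  rintro ⟨f, hf, -⟩
  have : NeZero (2 * t) := ⟨by omega⟩
  have := Fintype.card_le_of_injective f hf
  rw [ZMod.card, Fintype.card_fin] at this
  omega

theorem complete_eq {t : ℕ} (ht : 4 ≤ t) : 6 * lagrangian (complete (2 * t - 1)) = bd t :=
  le_antisymm (lagrangian_le _ (isThreeGraph_complete _) ht (complete_free ht)).1
    (bd_le_complete ht)

theorem main_statement (t : ℕ) (ht : 4 ≤ t) :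
    (∀ (n : ℕ) (G : Finset (Finset (Fin n))), IsThreeGraph G → ¬ Contains (linCycle t) G →
      lagrangian G ≤ lagrangian (complete (2 * t - 1)) ∧
      (lagrangian G = lagrangian (complete (2 * t - 1)) → Contains (complete (2 * t - 1)) G)) ∧
    lagrangianDensity (linCycle t) = 6 * lagrangian (complete (2 * t - 1)) := by
  have h1 : ∀ (n : ℕ) (G : Finset (Finset (Fin n))), IsThreeGraph G →
      ¬ Contains (linCycle t) G →
      lagrangian G ≤ lagrangian (complete (2 * t - 1)) ∧
      (lagrangian G = lagrangian (complete (2 * t - 1)) →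
        Contains (complete (2 * t - 1)) G) := by
    intro n G hG hfree
    have h := lagrangian_le G hG ht hfree
    have hc := complete_eq ht
    refine ⟨by linarith [h.1], fun he => h.2 ?_⟩
    rw [he]; exact hc
  refine ⟨h1, ?_⟩
  unfold lagrangianDensity
  have hg : IsGreatest {y : ℝ | ∃ (n : ℕ) (G : Finset (Finset (Fin n))),
      IsThreeGraph G ∧ ¬ Contains (linCycle t) G ∧ y = 6 * lagrangian G}
      (6 * lagrangian (complete (2 * t - 1))) := by
    constructor
    · exact ⟨_, complete (2 * t - 1), isThreeGraph_complete _, complete_free ht, rfl⟩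
    · rintro y ⟨n, G, hG, hfree, rfl⟩
      have := (h1 n G hG hfree).1
      linarith
  exact hg.csSup_eq

end Pool.Agent.TH486.LC
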