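import Pool.Agent.TH486.LC.Cyc

/-!
Bounds for the missing weights in terms of partial sums of the weights.
-/

set_option autoImplicit false

open Finset

namespace Pool.Agent.TH486.LC

namespace Cfg

variable (G : Cfg)

/-- upper bound for the missing weight of the `i`-th vertex -/
noncomputable def K (D : ℝ) (i : ℕ) : ℝ := D - G.s2 - 2 * (G.y i * (1 - G.y i))

/-- partial sums of squares -/
noncomputable def Q (j : ℕ) : ℝ := ∑ i ∈ range j, G.y i ^ 2

theorem Q_le (j : ℕ) : G.Q j ≤ G.s2 := by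
  unfold Q s2
  rcases le_total j G.n with h | h
  · apply Finset.sum_le_sum_of_subset_of_nonneg (range_mono h)
    intro i _ _; positivity
  · apply le_of_eq
    symm
    apply Finset.sum_subset (range_mono h)
    intro i _ hi
    rw [G.zero i (by simpa using hi)]
    norm_num

theorem add_le_one {i j : ℕ} (h : i ≠ j) : G.y i + G.y j ≤ 1 := by
  have h1 : ∑ k ∈ ({i, j} : Finset ℕ), G.y k ≤ G.T 2 := by
    apply G.sum_le_T'
    rw [card_pair h]
  rw [sum_pair h] at h1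
  linarith [G.T_le_one 2]

theorem K_mono (D : ℝ) {i j : ℕ} (h : i ≤ j) : G.K D i ≤ G.K D j := by
  rcases h.eq_or_lt with rfl | h'
  · exact le_refl _
  · unfold K
    have h1 := G.anti h
    have h2 := G.add_le_one h'.ne
    nlinarith [mul_nonneg (sub_nonneg.2 h1) (sub_nonneg.2 h2)]

theorem K_nonneg {D : ℝ} (hn : 0 < G.n) (hM : ∀ a, a < G.n → G.M a ≤ G.K D a) (i : ℕ) :
    0 ≤ G.K D i :=
  ((G.M_nonneg 0).trans (hM 0 hn)).trans (G.K_mono D (Nat.zero_le i))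

theorem pair_bound {D : ℝ} (hK : ∀ i, 0 ≤ G.K D i) {a a' r : ℕ} (h : a ≤ a') (h' : a' ≤ r)
    {N : ℝ} (h1 : N ≤ (r : ℝ) - a) (h2 : N ≤ 2 * ((r : ℝ) - a')) :
    N * (G.K D a + G.K D a') ≤ 2 * ∑ i ∈ range r, G.K D i := by
  have e1 : ∑ i ∈ range r, G.K D i
      = ∑ i ∈ range a, G.K D i + ∑ i ∈ Ico a a', G.K D i + ∑ i ∈ Ico a' r, G.K D i := by
    rw [Finset.sum_range_add_sum_Ico _ h, Finset.sum_range_add_sum_Ico _ h']
  have e2 : 0 ≤ ∑ i ∈ range a, G.K D i := Finset.sum_nonneg (fun i _ => hK i)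
  have e3 : ((a' : ℝ) - a) * G.K D a ≤ ∑ i ∈ Ico a a', G.K D i := by
    have : ∑ _i ∈ Ico a a', G.K D a ≤ ∑ i ∈ Ico a a', G.K D i :=
      Finset.sum_le_sum (fun i hi => G.K_mono D (mem_Ico.1 hi).1)
    rw [Finset.sum_const, Nat.card_Ico, nsmul_eq_mul, Nat.cast_sub h] at this
    exact this
  have e4 : ((r : ℝ) - a') * G.K D a' ≤ ∑ i ∈ Ico a' r, G.K D i := by
    have : ∑ _i ∈ Ico a' r, G.K D a' ≤ ∑ i ∈ Ico a' r, G.K D i :=
      Finset.sum_le_sum (fun i hi => G.K_mono D (mem_Ico.1 hi).1)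
    rw [Finset.sum_const, Nat.card_Ico, nsmul_eq_mul, Nat.cast_sub h'] at this
    exact this
  have h3 := G.K_mono D h
  have h4 := hK a
  nlinarith [mul_nonneg (sub_nonneg.2 h2) (sub_nonneg.2 h3), mul_nonneg (sub_nonneg.2 h1) h4]

theorem sumK (D : ℝ) (r : ℕ) :
    ∑ i ∈ range r, G.K D i = r * (D - G.s2) - 2 * G.T r + 2 * G.Q r := by
  unfold K T Q
  rw [Finset.sum_sub_distrib, Finset.sum_const, card_range, nsmul_eq_mul, ← Finset.mul_sum]
  have : ∑ i ∈ range r, G.y i * (1 - G.y i) = ∑ i ∈ range r, G.y i - ∑ i ∈ range r, G.y i ^ 2 := by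
    rw [← Finset.sum_sub_distrib]
    apply Finset.sum_congr rfl
    intro i _; ring
  rw [this]; ring

theorem cauchy (r : ℕ) : G.T r ^ 2 ≤ r * G.Q r := by
  have := sq_sum_le_card_mul_sum_sq (s := range r) (f := G.y)
  rwa [card_range] at this

theorem cauchy2 (U p : ℕ) : (G.T (U + p) - G.T U) ^ 2 ≤ p * (G.Q (U + p) - G.Q U) := by
  have e1 : G.T (U + p) - G.T U = ∑ i ∈ Ico U (U + p), G.y i := by
    unfold T
    rw [← Finset.sum_range_add_sum_Ico _ (Nat.le_add_right U p)]; ring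
  have e2 : G.Q (U + p) - G.Q U = ∑ i ∈ Ico U (U + p), G.y i ^ 2 := by
    unfold Q
    rw [← Finset.sum_range_add_sum_Ico _ (Nat.le_add_right U p)]; ring
  have := sq_sum_le_card_mul_sum_sq (s := Ico U (U + p)) (f := G.y)
  rw [Nat.card_Ico, Nat.add_sub_cancel_left] at this
  rwa [e1, e2]

theorem avg_le (U : ℕ) : U * G.y U ≤ G.T U := by
  have : ∑ _i ∈ range U, G.y U ≤ ∑ i ∈ range U, G.y i :=
    Finset.sum_le_sum (fun i hi => G.anti (mem_range.1 hi).le)
  rw [Finset.sum_const, card_range, nsmul_eq_mul] at this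
  exact this

theorem T_le_mul (U : ℕ) : G.T U ≤ U * G.y 0 := by
  have : ∑ i ∈ range U, G.y i ≤ ∑ _i ∈ range U, G.y 0 :=
    Finset.sum_le_sum (fun i _ => G.anti (Nat.zero_le i))
  rw [Finset.sum_const, card_range, nsmul_eq_mul] at this
  exact this

theorem diff_le (U p : ℕ) : U * (G.T (U + p) - G.T U) ≤ p * G.T U := by
  have e1 : G.T (U + p) - G.T U = ∑ i ∈ Ico U (U + p), G.y i := by
    unfold T
    rw [← Finset.sum_range_add_sum_Ico _ (Nat.le_add_right U p)]; ring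
  have e2 : ∑ i ∈ Ico U (U + p), G.y i ≤ ∑ _i ∈ Ico U (U + p), G.y U :=
    Finset.sum_le_sum (fun i hi => G.anti (mem_Ico.1 hi).1)
  rw [Finset.sum_const, Nat.card_Ico, Nat.add_sub_cancel_left, nsmul_eq_mul] at e2
  have e3 := G.avg_le U
  rw [e1]
  have h0 : (0 : ℝ) ≤ U := Nat.cast_nonneg _
  have hp : (0 : ℝ) ≤ p := Nat.cast_nonneg _
  calc (U : ℝ) * ∑ i ∈ Ico U (U + p), G.y i ≤ U * (p * G.y U) :=
        mul_le_mul_of_nonneg_left e2 h0
    _ = p * (U * G.y U) := by ring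
    _ ≤ p * G.T U := mul_le_mul_of_nonneg_left e3 hp

/-- the sum of `K` over the first `U` vertices -/
theorem sumK_le (D : ℝ) {U p : ℕ} (hU : 2 ≤ U) (hp : 1 ≤ p) :
    ∑ i ∈ range U, G.K D i ≤ U * D - 2 * G.T U - (U - 2) * (G.T U ^ 2 / U)
      - U * ((G.T (U + p) - G.T U) ^ 2 / p) := by
  rw [G.sumK]
  have h1 := G.cauchy U
  have h2 := G.cauchy2 U p
  have h3 := G.Q_le (U + p)
  have hU0 : (0 : ℝ) < U := by exact_mod_cast (by omega : 0 < U)
  have hU2 : (2 : ℝ) ≤ U := by exact_mod_cast hU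
  have hp0 : (0 : ℝ) < p := by exact_mod_cast (by omega : 0 < p)
  have h4 : G.T U ^ 2 / U ≤ G.Q U := by rw [div_le_iff₀ hU0]; linarith
  have h5 : (G.T (U + p) - G.T U) ^ 2 / p ≤ G.Q (U + p) - G.Q U := by
    rw [div_le_iff₀ hp0]; linarith
  have h6 : (U - 2) * (G.T U ^ 2 / U) ≤ (U - 2) * G.Q U :=
    mul_le_mul_of_nonneg_left h4 (by linarith)
  have h7 : U * ((G.T (U + p) - G.T U) ^ 2 / p) ≤ U * (G.Q (U + p) - G.Q U) :=
    mul_le_mul_of_nonneg_left h5 hU0.le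
  have h8 : U * G.Q (U + p) ≤ U * G.s2 := mul_le_mul_of_nonneg_left h3 hU0.le
  nlinarith

/-- two-block version of the bound for the first `U + p` vertices -/
theorem sumK_le_two (D : ℝ) {U p : ℕ} (hU : 2 ≤ U) (hp : 1 ≤ p) :
    ∑ i ∈ range (U + p), G.K D i ≤ (U + p) * D - 2 * G.T (U + p)
      - (U + p - 2) * (G.T U ^ 2 / U + (G.T (U + p) - G.T U) ^ 2 / p) := by
  rw [G.sumK]
  have h1 := G.cauchy U
  have h2 := G.cauchy2 U p
  have h3 := G.Q_le (U + p)
  have hU0 : (0 : ℝ) < U := by exact_mod_cast (by omega : 0 < U)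
  have hU2 : (2 : ℝ) ≤ U := by exact_mod_cast hU
  have hp0 : (0 : ℝ) < p := by exact_mod_cast (by omega : 0 < p)
  have h4 : G.T U ^ 2 / U ≤ G.Q U := by rw [div_le_iff₀ hU0]; linarith
  have h5 : (G.T (U + p) - G.T U) ^ 2 / p ≤ G.Q (U + p) - G.Q U := by
    rw [div_le_iff₀ hp0]; linarith
  have h6 : ((U : ℝ) + p - 2) * (G.T U ^ 2 / U + (G.T (U + p) - G.T U) ^ 2 / p)
      ≤ ((U : ℝ) + p - 2) * G.Q (U + p) :=
    mul_le_mul_of_nonneg_left (by linarith) (by linarith)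
  have h8 : ((U : ℝ) + p) * G.Q (U + p) ≤ ((U : ℝ) + p) * G.s2 :=
    mul_le_mul_of_nonneg_left h3 (by linarith)
  push_cast
  nlinarith

/-- one-block version -/
theorem sumK_le_one (D : ℝ) {m : ℕ} (hm : 2 ≤ m) :
    ∑ i ∈ range m, G.K D i ≤ m * D - 2 * G.T m - (m - 2) * (G.T m ^ 2 / m) := by
  rw [G.sumK]
  have h1 := G.cauchy m
  have h3 := G.Q_le m
  have hU0 : (0 : ℝ) < m := by exact_mod_cast (by omega : 0 < m)
  have hU2 : (2 : ℝ) ≤ m := by exact_mod_cast hm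
  have h4 : G.T m ^ 2 / m ≤ G.Q m := by rw [div_le_iff₀ hU0]; linarith
  have h6 : ((m : ℝ) - 2) * (G.T m ^ 2 / m) ≤ ((m : ℝ) - 2) * G.Q m :=
    mul_le_mul_of_nonneg_left h4 (by linarith)
  have h8 : (m : ℝ) * G.Q m ≤ m * G.s2 := mul_le_mul_of_nonneg_left h3 hU0.le
  nlinarith

/-- the first-order condition at the heaviest vertex bounds `T U` -/
theorem T_quad {D : ℝ} (hD : D < 3 / 4) (hK : 0 ≤ G.K D 0) {U : ℕ} (hU : 2 ≤ U) :
    2 * G.T U + (U - 2) * (G.T U ^ 2 / U) ≤ U * D := by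
  have hU0 : (0 : ℝ) < U := by exact_mod_cast (by omega : 0 < U)
  have hU2 : (2 : ℝ) ≤ U := by exact_mod_cast hU
  have h1 := G.cauchy U
  have h3 := G.Q_le U
  have h4 : G.T U ^ 2 / U ≤ G.Q U := by rw [div_le_iff₀ hU0]; linarith
  have h5 := G.T_le_mul U
  have h6 : G.T U / U ≤ G.y 0 := by rw [div_le_iff₀ hU0]; linarith
  have h7 : G.T U / U + G.y 0 ≤ 1 := by
    have h8 : G.T U / U ≤ 1 / 2 := by
      rw [div_le_iff₀ hU0]
      nlinarith [G.T_le_one U]
    have h9 : G.y 0 ≤ 1 / 2 := by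
      by_contra hc
      push Not at hc
      have h10 : G.y 0 ^ 2 ≤ G.s2 := by
        have := G.Q_le 1
        unfold Q at this
        simpa using this
      unfold K at hK
      have h11 : G.y 0 ≤ 1 := by
        have := G.T_le_one 1
        unfold T at this
        simpa using this
      nlinarith
    linarith
  unfold K at hK
  have e1 : G.T U ^ 2 / U = U * (G.T U / U) ^ 2 := by field_simp
  have e2 : U * (G.T U / U) = G.T U := by field_simp
  rw [e1] at h4 ⊢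
  set z := G.T U / U with hz
  rw [← e2]
  nlinarith [mul_nonneg (sub_nonneg.2 h6) (sub_nonneg.2 h7)]

end Cfg

end Pool.Agent.TH486.LC
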