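import Pool.Agent.TH486.LC.Lag
import Pool.Agent.TH486.LC.Num

/-!
From an optimal weight vector to a configuration on `{0, ..., n-1}` with decreasing weights.
-/

set_option autoImplicit false
set_option linter.unusedSectionVars false

open Finset

namespace Pool.Agent.TH486.LC

variable {V : Type} [Fintype V] [DecidableEq V]

/-- enumeration of a finite set with decreasing weights -/
theorem exists_enum (S : Finset V) (x : V → ℝ) (v0 : V) :
    ∃ φ : ℕ → V, (∀ i j, i < S.card → j < S.card → φ i = φ j → i = j) ∧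
      (∀ i, i < S.card → φ i ∈ S) ∧ (∀ v ∈ S, ∃ i, i < S.card ∧ φ i = v) ∧
      (∀ i j, i ≤ j → j < S.card → x (φ j) ≤ x (φ i)) := by
  let e0 : Fin S.card ≃ S := S.equivFin.symm
  let f : Fin S.card → ℝ := fun i => - x (e0 i)
  let σ := Tuple.sort f
  have hmono : Monotone (f ∘ σ) := Tuple.monotone_sort f
  refine ⟨fun i => if h : i < S.card then (e0 (σ ⟨i, h⟩) : V) else v0, ?_, ?_, ?_, ?_⟩
  · intro i j hi hj h
    simp only [hi, hj, dif_pos] at h
    have h1 := e0.injective (Subtype.ext h)
    have h2 := σ.injective h1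
    simpa using h2
  · intro i hi
    simp only [hi, dif_pos]
    exact (e0 (σ ⟨i, hi⟩)).2
  · intro v hv
    refine ⟨σ.symm (e0.symm ⟨v, hv⟩), (σ.symm (e0.symm ⟨v, hv⟩)).2, ?_⟩
    simp
  · intro i j hij hj
    have hi : i < S.card := lt_of_le_of_lt hij hj
    simp only [hi, hj, dif_pos]
    have := hmono (show (⟨i, hi⟩ : Fin S.card) ≤ ⟨j, hj⟩ from hij)
    simp only [Function.comp, f] at this
    linarith

/-- the configuration attached to a maximiser with smallest support -/
theorem exists_cfg (G : Finset (Finset V)) (hG : IsThreeGraph G) {x : V → ℝ}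
    (hx : x ∈ stdSimplex ℝ V)
    (hmax : ∀ y ∈ stdSimplex ℝ V, tri G y y y ≤ tri G x x x)
    (hmin : ∀ y ∈ stdSimplex ℝ V, (∀ z ∈ stdSimplex ℝ V, tri G z z z ≤ tri G y y y) →
        (supp x).card ≤ (supp y).card) :
    ∃ (C : Cfg) (φ : ℕ → V), (∀ i j, i < C.n → j < C.n → φ i = φ j → i = j) ∧
      (∀ a b c, C.E a b c → ({φ a, φ b, φ c} : Finset V) ∈ G) ∧
      (∀ a, a < C.n → C.M a = C.K (1 - tri G x x x) a) := by
  classical
  have hne : (univ : Finset V).Nonempty := by
    by_contra hc
    rw [Finset.not_nonempty_iff_eq_empty] at hc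
    have := hx.2
    rw [hc] at this
    simp at this
  obtain ⟨v0, _⟩ := hne
  obtain ⟨φ, hinj, hmem, hsurj, hanti⟩ := exists_enum (supp x) x v0
  set n := (supp x).card with hn
  have hxpos : ∀ i, i < n → 0 < x (φ i) := fun i hi => (mem_supp hx.1).1 (hmem i hi)
  have himage : supp x = (range n).image φ := by
    ext v
    rw [mem_image]
    constructor
    · intro hv
      obtain ⟨i, hi, hiv⟩ := hsurj v hv
      exact ⟨i, by simpa using hi, hiv⟩
    · rintro ⟨i, hi, rfl⟩
      exact hmem i (by simpa using hi)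
  have hsum : ∀ f : V → ℝ, (∀ v, x v = 0 → f v = 0) → ∑ v, f v = ∑ i ∈ range n, f (φ i) := by
    intro f hf
    have h1 : ∑ v ∈ supp x, f v = ∑ v, f v := by
      apply Finset.sum_subset (subset_univ _)
      intro v _ hv
      apply hf
      unfold supp at hv
      simpa using hv
    rw [← h1, himage, Finset.sum_image]
    intro i hi j hj hij
    exact hinj i j (by simpa using hi) (by simpa using hj) hij
  let y : ℕ → ℝ := fun i => if i < n then x (φ i) else 0
  have hy : ∀ i, i < n → y i = x (φ i) := fun i hi => by simp [y, hi]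
  have hy0 : ∀ i, n ≤ i → y i = 0 := fun i hi => by simp [y, not_lt.2 hi]
  let C : Cfg :=
    { n := n
      y := y
      E := fun a b c => a < n ∧ b < n ∧ c < n ∧ ({φ a, φ b, φ c} : Finset V) ∈ G
      anti := by
        intro i j hij
        rcases Nat.lt_or_ge j n with h | h
        · rw [hy j h, hy i (lt_of_le_of_lt hij h)]
          exact hanti i j hij h
        · rw [hy0 j h]
          rcases Nat.lt_or_ge i n with h' | h'
          · rw [hy i h']; exact hx.1 _
          · rw [hy0 i h']
      pos := fun i hi => by rw [hy i hi]; exact hxpos i hi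
      zero := hy0
      total := by
        have h1 := hsum x (fun v hv => hv)
        rw [hx.2] at h1
        rw [h1]
        apply Finset.sum_congr rfl
        intro i hi
        exact hy i (by simpa using hi)
      symm1 := by
        rintro a b c ⟨ha, hb, hc, h⟩
        refine ⟨hb, ha, hc, ?_⟩
        have : ({φ b, φ a, φ c} : Finset V) = {φ a, φ b, φ c} := by
          ext v; simp only [mem_insert, mem_singleton]; tauto
        rw [this]; exact h
      symm2 := by
        rintro a b c ⟨ha, hb, hc, h⟩
        refine ⟨ha, hc, hb, ?_⟩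
        have : ({φ a, φ c, φ b} : Finset V) = {φ a, φ b, φ c} := by
          ext v; simp only [mem_insert, mem_singleton]; tauto
        rw [this]; exact h
      ne := by
        rintro a b c ⟨ha, hb, hc, h⟩ rfl
        have h1 := hG _ h
        have h2 : ({φ a, φ a, φ c} : Finset V) = {φ a, φ c} := by simp
        rw [h2] at h1
        have := card_le_two (a := φ a) (b := φ c)
        omega
      lt := fun a b c h => h.2.2.1
      cover := by
        intro a b ha hb hab
        have hne : φ a ≠ φ b := fun h => hab (hinj a b ha hb h)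
        have h1 := codeg_pos G hG hx hmax hmin hne (hxpos a ha) (hxpos b hb)
        unfold codeg at h1
        obtain ⟨k, _, hk⟩ := Finset.exists_ne_zero_of_sum_ne_zero h1.ne'
        have hxk : x k ≠ 0 := fun h => hk (by rw [h, mul_zero])
        have hik : ind G (φ a) (φ b) k ≠ 0 := fun h => hk (by rw [h, zero_mul])
        obtain ⟨c, hc, rfl⟩ := hsurj k (by unfold supp; simpa using hxk)
        refine ⟨c, ha, hb, hc, ?_⟩
        unfold ind at hik
        by_contra hcon
        rw [if_neg hcon] at hik
        exact hik rfl }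
  refine ⟨C, φ, hinj, fun a b c h => h.2.2.2, ?_⟩
  intro a ha
  have ha' : a < n := ha
  have hcd : ∀ b, b < n → ∑ c ∈ C.N a b, C.y c
      = ∑ c ∈ range n, ind G (φ a) (φ b) (φ c) * y c := by
    intro b hb
    unfold Cfg.N
    rw [Finset.sum_filter]
    apply Finset.sum_congr rfl
    intro c hc
    have hcn : c < n := by simpa [C] using hc
    unfold ind
    have : C.E a b c ↔ ({φ a, φ b, φ c} : Finset V) ∈ G := by
      constructor
      · intro h; exact h.2.2.2
      · intro h; exact ⟨ha', hb, hcn, h⟩
    by_cases hE : ({φ a, φ b, φ c} : Finset V) ∈ G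
    · rw [if_pos (this.2 hE), if_pos hE, one_mul]
    · rw [if_neg (fun h => hE (this.1 h)), if_neg hE, zero_mul]
  have hgrad : tri G x x x = ∑ b ∈ range n, y b * ∑ c ∈ C.N a b, C.y c := by
    rw [← grad_val G hG hx hmax (hxpos a ha')]
    unfold grad
    rw [hsum (fun j => ∑ k, ind G (φ a) j k * (x j * x k))]
    · apply Finset.sum_congr rfl
      intro b hb
      have hbn : b < n := by simpa using hb
      rw [hsum (fun k => ind G (φ a) (φ b) k * (x (φ b) * x k)), hcd b hbn, Finset.mul_sum]
      · apply Finset.sum_congr rfl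
        intro c hc
        rw [hy b hbn, hy c (by simpa using hc)]; ring
      · intro v hv; rw [hv]; ring
    · intro v hv
      apply Finset.sum_eq_zero
      intro k _
      rw [hv]; ring
  have hNaa : C.N a a = ∅ := by
    rw [Finset.eq_empty_iff_forall_notMem]
    intro c hc
    exact C.ne _ _ _ (C.mem_N.1 hc) rfl
  unfold Cfg.M Cfg.K Cfg.w
  have h1 : ∑ b ∈ (range C.n).erase a, C.y b * (1 - C.y a - C.y b - ∑ c ∈ C.N a b, C.y c)
      = ∑ b ∈ range C.n, C.y b * (1 - C.y a - C.y b - ∑ c ∈ C.N a b, C.y c)
        - C.y a * (1 - C.y a - C.y a - ∑ c ∈ C.N a a, C.y c) := by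
    rw [← Finset.add_sum_erase (range C.n) _ (mem_range.2 ha)]
    ring
  rw [h1, hNaa, sum_empty]
  have h2 : ∑ b ∈ range C.n, C.y b * (1 - C.y a - C.y b - ∑ c ∈ C.N a b, C.y c)
      = (1 - C.y a) * ∑ b ∈ range C.n, C.y b - ∑ b ∈ range C.n, C.y b ^ 2
        - ∑ b ∈ range C.n, C.y b * ∑ c ∈ C.N a b, C.y c := by
    rw [Finset.mul_sum, ← Finset.sum_sub_distrib, ← Finset.sum_sub_distrib]
    apply Finset.sum_congr rfl
    intro b _; ring
  have h3 : ∑ b ∈ range C.n, C.y b * ∑ c ∈ C.N a b, C.y c = tri G x x x := hgrad.symm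
  rw [h2, C.total, h3]
  unfold Cfg.s2
  ring

end Pool.Agent.TH486.LC
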