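import Pool.Agent.TH486.LC.Cfg

/-!
The choice of one core vertex between two given core vertices.
-/

set_option autoImplicit false

open Finset

namespace Pool.Agent.TH486.LC

namespace Cfg

variable (G : Cfg)

/-- `v` can be placed between `a` and `a'` -/
def Good (J m a a' v : ℕ) : Prop :=
  (m ≤ (G.N a v).card + 1 ∧ J ≤ (G.N v a').card + 1) ∨
  (J ≤ (G.N a v).card + 1 ∧ m ≤ (G.N v a').card + 1)

open Classical in
/-- the vertices outside `B` that can be placed between `a` and `a'` -/
noncomputable def R (B : Finset ℕ) (J m a a' : ℕ) : Finset ℕ :=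
  (range G.n).filter (fun v => v ∉ B ∧ G.Good J m a a' v)

theorem mem_R {B : Finset ℕ} {J m a a' v : ℕ} :
    v ∈ G.R B J m a a' ↔ v < G.n ∧ v ∉ B ∧ G.Good J m a a' v := by
  classical
  unfold R
  simp [mem_filter]

theorem w_add_ge {J m a a' v : ℕ} (hav : a ≠ v) (hav' : a' ≠ v)
    (h : ¬ G.Good J m a a' v) :
    min (1 - G.T J) (2 * (1 - G.T m)) ≤ G.w a v + G.w a' v := by
  have hw := G.w_nonneg hav
  have hw' := G.w_nonneg hav'
  have e1 : (G.N v a').card = (G.N a' v).card := by rw [G.N_comm]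
  unfold Good at h
  rw [e1] at h
  push Not at h
  obtain ⟨h1, h2⟩ := h
  by_cases c1 : m ≤ (G.N a v).card + 1
  · have h3 := h1 c1
    have h4 := G.w_ge hav' (k := J) (by omega)
    exact (min_le_left _ _).trans (by linarith)
  · by_cases c2 : m ≤ (G.N a' v).card + 1
    · have h3 : ¬ (J ≤ (G.N a v).card + 1) := by
        intro h4
        have := h2 h4
        omega
      have h4 := G.w_ge hav (k := J) (by omega)
      exact (min_le_left _ _).trans (by linarith)
    · have h4 := G.w_ge hav (k := m) (by omega)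
      have h5 := G.w_ge hav' (k := m) (by omega)
      exact (min_le_right _ _).trans (by linarith)

theorem pos_lemma {a a' : ℕ} (B : Finset ℕ) (ha : a ∈ B) (ha' : a' ∈ B)
    (q U J m : ℕ) (hU : B.card + q ≤ U + 1) (hR : (G.R B J m a a').card < q)
    (F : Finset ℕ) (hFB : F ⊆ B) (hFn : F ⊆ range G.n) (haF : a ∉ F) :
    ∑ v ∈ F, G.y v * G.w a v + (1 - G.T U) * min (1 - G.T J) (2 * (1 - G.T m))
      ≤ G.M a + G.M a' := by
  classical
  set μ := min (1 - G.T J) (2 * (1 - G.T m)) with hμ
  have hμ0 : 0 ≤ μ := by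
    apply le_min
    · linarith [G.T_le_one J]
    · linarith [G.T_le_one m]
  set W := range G.n \ (B ∪ G.R B J m a a') with hW
  have haW : a ∉ W := by
    intro h; rw [hW, mem_sdiff, mem_union] at h; exact h.2 (Or.inl ha)
  have haW' : a' ∉ W := by
    intro h; rw [hW, mem_sdiff, mem_union] at h; exact h.2 (Or.inl ha')
  have hWn : W ⊆ range G.n := sdiff_subset
  have hd : Disjoint F W := by
    rw [Finset.disjoint_left]
    intro v hv hvW
    rw [hW, mem_sdiff, mem_union] at hvW
    exact hvW.2 (Or.inl (hFB hv))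
  have h1 : ∑ v ∈ F, G.y v * G.w a v + ∑ v ∈ W, G.y v * G.w a v ≤ G.M a := by
    rw [← Finset.sum_union hd]
    apply G.M_ge
    · exact union_subset hFn hWn
    · rw [mem_union]; push Not; exact ⟨haF, haW⟩
  have h2 : ∑ v ∈ W, G.y v * G.w a' v ≤ G.M a' := G.M_ge a' W hWn haW'
  have h3 : ∑ v ∈ W, G.y v * μ ≤ ∑ v ∈ W, G.y v * G.w a v + ∑ v ∈ W, G.y v * G.w a' v := by
    rw [← Finset.sum_add_distrib]
    apply Finset.sum_le_sum
    intro v hv
    rw [← mul_add]
    apply mul_le_mul_of_nonneg_left _ (G.nonneg v)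
    have hvB : v ∉ B := by
      rw [hW, mem_sdiff, mem_union] at hv
      push Not at hv; exact hv.2.1
    have hvR : v ∉ G.R B J m a a' := by
      rw [hW, mem_sdiff, mem_union] at hv
      push Not at hv; exact hv.2.2
    have hvn : v < G.n := by simpa using hWn hv
    apply G.w_add_ge
    · rintro rfl; exact hvB ha
    · rintro rfl; exact hvB ha'
    · intro hg
      exact hvR (G.mem_R.2 ⟨hvn, hvB, hg⟩)
  have h4 : 1 - G.T U ≤ ∑ v ∈ W, G.y v := by
    have e1 : ∑ v ∈ W, G.y v + ∑ v ∈ range G.n ∩ (B ∪ G.R B J m a a'), G.y v = 1 := by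
      rw [← G.total, hW]
      have := Finset.sum_inter_add_sum_sdiff (range G.n) (B ∪ G.R B J m a a') G.y
      linarith
    have e2 : ∑ v ∈ range G.n ∩ (B ∪ G.R B J m a a'), G.y v ≤ G.T U := by
      apply G.sum_le_T'
      calc (range G.n ∩ (B ∪ G.R B J m a a')).card ≤ (B ∪ G.R B J m a a').card :=
            card_le_card inter_subset_right
        _ ≤ B.card + (G.R B J m a a').card := card_union_le _ _
        _ ≤ U := by omega
    linarith
  rw [← Finset.sum_mul] at h3
  have h5 : (1 - G.T U) * μ ≤ (∑ v ∈ W, G.y v) * μ := mul_le_mul_of_nonneg_right h4 hμ0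
  linarith

end Cfg

end Pool.Agent.TH486.LC
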