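import Mathlib

/-!
The symmetric trilinear form of a 3-graph, and first order conditions at a maximum.
-/

set_option autoImplicit false

open Finset

namespace Pool.Agent.TH486.LC

set_option linter.unusedSectionVars false

variable {V : Type} [Fintype V] [DecidableEq V]

/-- indicator of an ordered edge -/
noncomputable def ind (G : Finset (Finset V)) (i j k : V) : ℝ :=
  if ({i, j, k} : Finset V) ∈ G then 1 else 0

/-- trilinear form -/
noncomputable def tri (G : Finset (Finset V)) (x y z : V → ℝ) : ℝ :=
  ∑ i, ∑ j, ∑ k, ind G i j k * (x i * y j * z k)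

theorem ind_nonneg (G : Finset (Finset V)) (i j k : V) : 0 ≤ ind G i j k := by
  unfold ind; split_ifs <;> norm_num

theorem ind_swap12 (G : Finset (Finset V)) (i j k : V) : ind G i j k = ind G j i k := by
  unfold ind
  have : ({i, j, k} : Finset V) = {j, i, k} := by
    ext a; simp only [mem_insert, mem_singleton]; tauto
  rw [this]

theorem ind_swap23 (G : Finset (Finset V)) (i j k : V) : ind G i j k = ind G i k j := by
  unfold ind
  have : ({i, j, k} : Finset V) = {i, k, j} := by
    ext a; simp only [mem_insert, mem_singleton]; tauto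
  rw [this]

theorem ind_self (G : Finset (Finset V)) (hG : ∀ e ∈ G, e.card = 3) (i k : V) :
    ind G i i k = 0 := by
  unfold ind
  rw [if_neg]
  intro h
  have h1 := hG _ h
  have h2 : ({i, i, k} : Finset V) = {i, k} := by simp
  rw [h2] at h1
  have := card_le_two (a := i) (b := k)
  omega

theorem tri_swap12 (G : Finset (Finset V)) (x y z : V → ℝ) : tri G x y z = tri G y x z := by
  unfold tri
  rw [Finset.sum_comm]
  apply Finset.sum_congr rfl; intro i _
  apply Finset.sum_congr rfl; intro j _
  apply Finset.sum_congr rfl; intro k _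
  rw [ind_swap12]; ring

theorem tri_swap23 (G : Finset (Finset V)) (x y z : V → ℝ) : tri G x y z = tri G x z y := by
  unfold tri
  apply Finset.sum_congr rfl; intro i _
  rw [Finset.sum_comm]
  apply Finset.sum_congr rfl; intro j _
  apply Finset.sum_congr rfl; intro k _
  rw [ind_swap23]; ring

theorem tri_add (G : Finset (Finset V)) (x x' y z : V → ℝ) (s : ℝ) :
    tri G (fun i => x i + s * x' i) y z = tri G x y z + s * tri G x' y z := by
  unfold tri
  rw [Finset.mul_sum, ← Finset.sum_add_distrib]
  apply Finset.sum_congr rfl; intro i _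
  rw [Finset.mul_sum, ← Finset.sum_add_distrib]
  apply Finset.sum_congr rfl; intro j _
  rw [Finset.mul_sum, ← Finset.sum_add_distrib]
  apply Finset.sum_congr rfl; intro k _
  ring

/-- the direction `e_p - e_q` -/
noncomputable def dir (p q : V) : V → ℝ := fun i => (if i = p then 1 else 0) - (if i = q then 1 else 0)

/-- linear functional attached to a vertex -/
noncomputable def grad (G : Finset (Finset V)) (x : V → ℝ) (p : V) : ℝ :=
  ∑ j, ∑ k, ind G p j k * (x j * x k)

/-- codegree weight -/
noncomputable def codeg (G : Finset (Finset V)) (x : V → ℝ) (p q : V) : ℝ :=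
  ∑ k, ind G p q k * x k

theorem tri_dir (G : Finset (Finset V)) (p q : V) (y z : V → ℝ) :
    tri G (dir p q) y z = (∑ j, ∑ k, ind G p j k * (y j * z k))
      - ∑ j, ∑ k, ind G q j k * (y j * z k) := by
  unfold tri dir
  have h : ∀ i : V, (∑ j, ∑ k, ind G i j k *
      (((if i = p then (1:ℝ) else 0) - (if i = q then 1 else 0)) * y j * z k))
      = (if i = p then (∑ j, ∑ k, ind G i j k * (y j * z k)) else 0)
        - (if i = q then (∑ j, ∑ k, ind G i j k * (y j * z k)) else 0) := by
    intro i
    have e : (∑ j, ∑ k, ind G i j k *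
      (((if i = p then (1:ℝ) else 0) - (if i = q then 1 else 0)) * y j * z k))
      = ((if i = p then (1:ℝ) else 0) - (if i = q then 1 else 0)) *
        (∑ j, ∑ k, ind G i j k * (y j * z k)) := by
      rw [Finset.mul_sum]
      apply Finset.sum_congr rfl; intro j _
      rw [Finset.mul_sum]
      apply Finset.sum_congr rfl; intro k _
      ring
    rw [e]
    split_ifs <;> ring
  rw [Finset.sum_congr rfl (fun i _ => h i), Finset.sum_sub_distrib]
  simp

theorem sum_dir (p q : V) (f : V → ℝ) : ∑ j, dir p q j * f j = f p - f q := by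
  unfold dir
  simp [sub_mul, Finset.sum_sub_distrib]

theorem tri_dir_dir (G : Finset (Finset V)) (hG : ∀ e ∈ G, e.card = 3) (p q : V) (z : V → ℝ) :
    tri G (dir p q) (dir p q) z = - 2 * codeg G z p q := by
  rw [tri_dir]
  have h : ∀ r : V, (∑ j, ∑ k, ind G r j k * (dir p q j * z k))
      = codeg G z r p - codeg G z r q := by
    intro r
    rw [← sum_dir p q (fun j => codeg G z r j)]
    apply Finset.sum_congr rfl; intro j _
    unfold codeg
    rw [Finset.mul_sum]
    apply Finset.sum_congr rfl; intro k _
    ring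
  rw [h p, h q]
  have h1 : ∀ r : V, codeg G z r r = 0 := by
    intro r
    unfold codeg
    apply Finset.sum_eq_zero
    intro k _
    rw [ind_self G hG, zero_mul]
  have h2 : codeg G z q p = codeg G z p q := by
    unfold codeg
    apply Finset.sum_congr rfl; intro k _
    rw [ind_swap12]
  rw [h1, h1, h2]; ring

theorem tri_dir3 (G : Finset (Finset V)) (hG : ∀ e ∈ G, e.card = 3) (p q : V) :
    tri G (dir p q) (dir p q) (dir p q) = 0 := by
  rw [tri_dir_dir G hG]
  have : codeg G (dir p q) p q = 0 := by
    unfold codeg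
    have e : ∑ k, ind G p q k * dir p q k = ∑ k, dir p q k * ind G p q k := by
      apply Finset.sum_congr rfl; intro k _; ring
    rw [e, sum_dir]
    have h1 : ind G p q p = 0 := by
      rw [ind_swap23, ind_self G hG]
    have h2 : ind G p q q = 0 := by
      rw [ind_swap12, ind_swap23, ind_self G hG]
    rw [h1, h2]; ring
  rw [this]; ring

/-- the cubic along the direction -/
theorem tri_line (G : Finset (Finset V)) (hG : ∀ e ∈ G, e.card = 3) (p q : V) (x : V → ℝ) (s : ℝ) :
    tri G (fun i => x i + s * dir p q i) (fun i => x i + s * dir p q i)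
        (fun i => x i + s * dir p q i)
      = tri G x x x + 3 * s * (grad G x p - grad G x q) - 6 * s ^ 2 * codeg G x p q := by
  set d := dir p q with hd
  set x' : V → ℝ := fun i => x i + s * d i with hx'
  have e1 : tri G x' x' x' = tri G x x' x' + s * tri G d x' x' := tri_add G x d x' x' s
  have e2 : tri G x x' x' = tri G x x x' + s * tri G d x x' := by
    rw [tri_swap12 G x x' x', hx', tri_add G x d x _ s, ← hx', tri_swap12 G d x x']
  have e3 : tri G x x x' = tri G x x x + s * tri G d x x := by
    rw [tri_swap23 G x x x', tri_swap12 G x x' x, hx', tri_add G x d x x s]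
  have e4 : tri G d x x' = tri G d x x + s * tri G d d x := by
    rw [tri_swap23 G d x x', tri_swap12 G d x' x, hx', tri_add G x d d x s, tri_swap12 G x d x]
  have e5 : tri G d x' x' = tri G d x x' + s * tri G d d x' := by
    rw [tri_swap12 G d x' x', hx', tri_add G x d d _ s, ← hx', tri_swap12 G x d x']
  have e6 : tri G d d x' = tri G d d x + s * tri G d d d := by
    rw [tri_swap23 G d d x', tri_swap12 G d x' d, hx', tri_add G x d d d s,
      tri_swap12 G x d d, tri_swap23 G d x d]
  have e7 : tri G d x x = grad G x p - grad G x q := by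
    rw [hd, tri_dir]; rfl
  have e8 : tri G d d x = -2 * codeg G x p q := tri_dir_dir G hG p q x
  have e9 : tri G d d d = 0 := tri_dir3 G hG p q
  rw [e1, e2, e3, e5, e4, e6, e7, e8, e9]
  ring

/-! ### maximisers -/

theorem mem_simplex_line {x : V → ℝ} (hx : x ∈ stdSimplex ℝ V) {p q : V} (hpq : p ≠ q) {s : ℝ}
    (h1 : -s ≤ x p) (h2 : s ≤ x q) : (fun i => x i + s * dir p q i) ∈ stdSimplex ℝ V := by
  constructor
  · intro i
    unfold dir
    by_cases hip : i = p
    · subst hip
      simp only [if_true, if_neg hpq]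
      linarith
    · by_cases hiq : i = q
      · subst hiq
        simp only [if_neg hip, if_true]
        linarith
      · simp only [if_neg hip, if_neg hiq]
        have := hx.1 i
        linarith
  · rw [Finset.sum_add_distrib, hx.2]
    have : ∑ i, s * dir p q i = 0 := by
      have h := sum_dir p q (fun _ => s)
      have e : ∑ i, s * dir p q i = ∑ i, dir p q i * s := by
        apply Finset.sum_congr rfl; intro i _; ring
      rw [e, h]; ring
    rw [this]; ring

theorem codeg_nonneg (G : Finset (Finset V)) {x : V → ℝ} (hx : ∀ i, 0 ≤ x i) (p q : V) :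
    0 ≤ codeg G x p q := by
  unfold codeg
  exact Finset.sum_nonneg (fun k _ => mul_nonneg (ind_nonneg G p q k) (hx k))

/-- equality of partial derivatives on the support -/
theorem grad_le (G : Finset (Finset V)) (hG : ∀ e ∈ G, e.card = 3) {x : V → ℝ}
    (hx : x ∈ stdSimplex ℝ V)
    (hmax : ∀ y ∈ stdSimplex ℝ V, tri G y y y ≤ tri G x x x) {p q : V} (hpq : p ≠ q)
    (hq : 0 < x q) : grad G x p ≤ grad G x q := by
  by_contra hc
  push Not at hc
  set Δ := grad G x p - grad G x q with hΔ
  have hΔ0 : 0 < Δ := by rw [hΔ]; linarith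
  set h := codeg G x p q with hh
  have hh0 : 0 ≤ h := codeg_nonneg G hx.1 p q
  set s := min (x q) (Δ / (2 * h + 1) / 2) with hs
  have hs0 : 0 < s := by
    apply lt_min hq; positivity
  have hs1 : s ≤ x q := min_le_left _ _
  have hs2 : s ≤ Δ / (2 * h + 1) / 2 := min_le_right _ _
  have h1 := hmax _ (mem_simplex_line hx hpq (s := s) (by linarith [hx.1 p]) hs1)
  rw [tri_line G hG] at h1
  have h2 : s * (2 * h + 1) * 2 ≤ Δ := by
    have : s * 2 ≤ Δ / (2 * h + 1) := by linarith
    rw [le_div_iff₀ (by positivity)] at this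
    linarith
  have h3 : 3 * s * Δ ≤ 6 * s ^ 2 * h := by linarith
  have h4 : Δ ≤ 2 * s * h := by
    have : s * (3 * Δ) ≤ s * (6 * s * h) := by nlinarith
    have := le_of_mul_le_mul_left this hs0
    linarith
  nlinarith

theorem grad_eq (G : Finset (Finset V)) (hG : ∀ e ∈ G, e.card = 3) {x : V → ℝ}
    (hx : x ∈ stdSimplex ℝ V)
    (hmax : ∀ y ∈ stdSimplex ℝ V, tri G y y y ≤ tri G x x x) {p q : V}
    (hp : 0 < x p) (hq : 0 < x q) : grad G x p = grad G x q := by
  by_cases hpq : p = q
  · rw [hpq]
  · exact le_antisymm (grad_le G hG hx hmax hpq hq) (grad_le G hG hx hmax (Ne.symm hpq) hp)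

theorem tri_eq_sum_grad (G : Finset (Finset V)) (x : V → ℝ) :
    tri G x x x = ∑ p, x p * grad G x p := by
  unfold tri grad
  apply Finset.sum_congr rfl; intro i _
  rw [Finset.mul_sum]
  apply Finset.sum_congr rfl; intro j _
  rw [Finset.mul_sum]
  apply Finset.sum_congr rfl; intro k _
  ring

theorem grad_val (G : Finset (Finset V)) (hG : ∀ e ∈ G, e.card = 3) {x : V → ℝ}
    (hx : x ∈ stdSimplex ℝ V)
    (hmax : ∀ y ∈ stdSimplex ℝ V, tri G y y y ≤ tri G x x x) {p : V}
    (hp : 0 < x p) : grad G x p = tri G x x x := by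
  rw [tri_eq_sum_grad]
  have : ∑ q, x q * grad G x q = ∑ q, x q * grad G x p := by
    apply Finset.sum_congr rfl
    intro q _
    rcases (hx.1 q).eq_or_lt with h | h
    · rw [← h]; ring
    · rw [grad_eq G hG hx hmax h hp]
  rw [this, ← Finset.sum_mul, hx.2, one_mul]

/-- the support of a weight vector -/
noncomputable def supp (x : V → ℝ) : Finset V := univ.filter (fun i => x i ≠ 0)

theorem mem_supp {x : V → ℝ} (hx : ∀ i, 0 ≤ x i) {i : V} : i ∈ supp x ↔ 0 < x i := by
  unfold supp
  simp only [mem_filter, mem_univ, true_and]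
  exact ⟨fun h => lt_of_le_of_ne (hx i) (Ne.symm h), fun h => h.ne'⟩

theorem continuous_tri (G : Finset (Finset V)) : Continuous (fun x : V → ℝ => tri G x x x) := by
  unfold tri
  fun_prop

/-- a maximiser with smallest support -/
theorem exists_max (G : Finset (Finset V)) [Nonempty V] :
    ∃ x ∈ stdSimplex ℝ V, (∀ y ∈ stdSimplex ℝ V, tri G y y y ≤ tri G x x x) ∧
      ∀ y ∈ stdSimplex ℝ V, (∀ z ∈ stdSimplex ℝ V, tri G z z z ≤ tri G y y y) →
        (supp x).card ≤ (supp y).card := by
  have hne : (stdSimplex ℝ V).Nonempty := by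
    obtain ⟨v⟩ := ‹Nonempty V›
    exact ⟨Pi.single v 1, single_mem_stdSimplex ℝ v⟩
  obtain ⟨x0, hx0, hm0⟩ := (isCompact_stdSimplex ℝ V).exists_isMaxOn hne
    (continuous_tri G).continuousOn
  let P : ℕ → Prop := fun k => ∃ x ∈ stdSimplex ℝ V,
    (∀ y ∈ stdSimplex ℝ V, tri G y y y ≤ tri G x x x) ∧ (supp x).card = k
  have hP : ∃ k, P k := ⟨_, x0, hx0, fun y hy => hm0 hy, rfl⟩
  classical
  obtain ⟨x, hx, hm, hc⟩ := Nat.find_spec hP
  refine ⟨x, hx, hm, ?_⟩
  intro y hy hym
  rw [hc]
  exact Nat.find_min' hP ⟨y, hy, hym, rfl⟩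

/-- pairs in the support of such a maximiser have positive codegree weight -/
theorem codeg_pos (G : Finset (Finset V)) (hG : ∀ e ∈ G, e.card = 3) {x : V → ℝ}
    (hx : x ∈ stdSimplex ℝ V)
    (hmax : ∀ y ∈ stdSimplex ℝ V, tri G y y y ≤ tri G x x x)
    (hmin : ∀ y ∈ stdSimplex ℝ V, (∀ z ∈ stdSimplex ℝ V, tri G z z z ≤ tri G y y y) →
        (supp x).card ≤ (supp y).card)
    {p q : V} (hpq : p ≠ q) (hp : 0 < x p) (hq : 0 < x q) : 0 < codeg G x p q := by
  rcases (codeg_nonneg G hx.1 p q).eq_or_lt with h | h
  · exfalso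
    have hy := mem_simplex_line hx hpq (s := x q) (by linarith) le_rfl
    set y : V → ℝ := fun i => x i + x q * dir p q i with hyd
    have e : tri G y y y = tri G x x x := by
      rw [hyd, tri_line G hG, ← h, grad_eq G hG hx hmax hp hq]; ring
    have h1 := hmin y hy (fun z hz => (hmax z hz).trans e.ge)
    have h2 : supp y ⊂ supp x := by
      rw [Finset.ssubset_iff_of_subset]
      · refine ⟨q, (mem_supp hx.1).2 hq, ?_⟩
        rw [mem_supp hy.1, hyd]
        unfold dir
        simp [Ne.symm hpq]
      · intro i hi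
        rw [mem_supp hy.1, hyd] at hi
        rw [mem_supp hx.1]
        by_contra hc
        push Not at hc
        have hi0 : x i = 0 := le_antisymm hc (hx.1 i)
        have hip : i ≠ p := by rintro rfl; linarith
        have hiq : i ≠ q := by rintro rfl; linarith
        unfold dir at hi
        simp [hip, hiq, hi0] at hi
    have := Finset.card_lt_card h2
    omega
  · exact h

end Pool.Agent.TH486.LC
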